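import Mathlib

set_option autoImplicit false

open MvPolynomial Filter Topology

namespace Pool.Agent.Results.MP_3d9fc2_ag.NoFiniteUnion

section Statement
variable {K : Type*} [Field K] {N : ℕ}

/-- `F` is a tuple of `N + 1` forms of the same degree `d` in `N + 1` variables whose only common
factors are the nonzero constants: the reduced homogeneous representation of a rational self-map of
projective `N`-space of degree `d`. -/
structure IsReduced (F : Fin (N + 1) → MvPolynomial (Fin (N + 1)) K) (d : ℕ) : Prop where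
  homogeneous : ∀ i, (F i).IsHomogeneous d
  coprime : ∀ c : MvPolynomial (Fin (N + 1)) K, (∀ i, c ∣ F i) → IsUnit c

/-- The rational map is dominant: its coordinates satisfy no nontrivial polynomial relation. -/
def IsDominant (F : Fin (N + 1) → MvPolynomial (Fin (N + 1)) K) : Prop :=
  ∀ P : MvPolynomial (Fin (N + 1)) K, aeval F P = 0 → P = 0

/-- The `n`-fold composition of `F` with itself, by plain substitution. -/
noncomputable def iter (F : Fin (N + 1) → MvPolynomial (Fin (N + 1)) K) :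
    ℕ → Fin (N + 1) → MvPolynomial (Fin (N + 1)) K
  | 0 => X
  | n + 1 => fun i => aeval F (iter F n i)

/-- `e` is the degree of the `n`-th iterate: after removing the common factor `h` of the `n`-fold
composition one is left with a reduced tuple of degree `e`. -/
def IsIterateDegree (F : Fin (N + 1) → MvPolynomial (Fin (N + 1)) K) (n e : ℕ) : Prop :=
  ∃ (h : MvPolynomial (Fin (N + 1)) K) (G : Fin (N + 1) → MvPolynomial (Fin (N + 1)) K),
    h ≠ 0 ∧ (∀ i, iter F n i = h * G i) ∧ IsReduced G e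

/-- `L` is a constant-coefficient linear recurrence sequence of complex numbers indexed by
`n ≥ 1` (the value at `0` is irrelevant). -/
def IsLinearRecurrence (L : ℕ → ℂ) : Prop :=
  ∃ (k : ℕ) (c : Fin k → ℂ), 1 ≤ k ∧ ∀ n, 1 ≤ n → L (n + k) = ∑ i : Fin k, c i * L (n + i)

end Statement

section Unique
variable {K : Type*} [Field K] {N : ℕ}

lemma unit_degree {σ : Type*} {p : MvPolynomial σ K} {e : ℕ} (hu : IsUnit p)
    (hp : p.IsHomogeneous e) : e = 0 := by
  have h1 := hp.totalDegree hu.ne_zero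
  rw [MvPolynomial.isUnit_iff_eq_C_of_isReduced] at hu
  obtain ⟨r, _, rfl⟩ := hu
  rw [totalDegree_C] at h1
  exact h1.symm

lemma dvd_of_dvd_mul_coprime {G : Fin (N + 1) → MvPolynomial (Fin (N + 1)) K}
    (hG : ∀ c : MvPolynomial (Fin (N + 1)) K, (∀ i, c ∣ G i) → IsUnit c)
    {r q : MvPolynomial (Fin (N + 1)) K} (h : ∀ i, r ∣ q * G i) : r ∣ q := by
  classical
  have : NormalizedGCDMonoid (MvPolynomial (Fin (N + 1)) K) := Classical.choice inferInstance
  have h1 : r ∣ Finset.univ.gcd (fun i => q * G i) := Finset.dvd_gcd (fun i _ => h i)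
  have h2 : IsUnit (Finset.univ.gcd G) := hG _ (fun i => Finset.gcd_dvd (Finset.mem_univ i))
  have h3 : r ∣ q * Finset.univ.gcd G := h1.trans (Finset.gcd_mul_left' Finset.univ G q).dvd
  exact (h2.dvd_mul_right).1 h3

/-- the degree of an iterate is well defined -/
lemma iterateDegree_unique {F : Fin (N + 1) → MvPolynomial (Fin (N + 1)) K} {n e e' : ℕ}
    (h : IsIterateDegree F n e) (h' : IsIterateDegree F n e') : e = e' := by
  obtain ⟨c, G, hc, hG, hred⟩ := h
  obtain ⟨c', G', hc', hG', hred'⟩ := h'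
  have key : ∀ i, c * G i = c' * G' i := fun i => by rw [← hG, ← hG']
  have d1 : c ∣ c' := dvd_of_dvd_mul_coprime hred'.coprime (fun i => ⟨G i, (key i).symm⟩)
  have d2 : c' ∣ c := dvd_of_dvd_mul_coprime hred.coprime (fun i => ⟨G' i, key i⟩)
  obtain ⟨i, hi⟩ : ∃ i, G i ≠ 0 := by
    by_contra hcon
    push Not at hcon
    have := hred.coprime (X 0) (fun i => by rw [hcon i]; exact dvd_zero _)
    have h1 := unit_degree this (isHomogeneous_X K (0 : Fin (N + 1)))
    omega
  have hi' : G' i ≠ 0 := by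
    intro h0
    have := key i
    rw [h0, mul_zero] at this
    exact (mul_ne_zero hc hi) this
  obtain ⟨r, hr⟩ := d1
  obtain ⟨r', hr'⟩ := d2
  have t0 := congrArg totalDegree (key i)
  rw [totalDegree_mul_of_isDomain hc hi, totalDegree_mul_of_isDomain hc' hi',
    (hred.homogeneous i).totalDegree hi, (hred'.homogeneous i).totalDegree hi'] at t0
  have r0 : r ≠ 0 := by rintro rfl; rw [mul_zero] at hr; exact hc' hr
  have r0' : r' ≠ 0 := by rintro rfl; rw [mul_zero] at hr'; exact hc hr'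
  have t1 := congrArg totalDegree hr
  have t2 := congrArg totalDegree hr'
  rw [totalDegree_mul_of_isDomain hc r0] at t1
  rw [totalDegree_mul_of_isDomain hc' r0'] at t2
  omega

end Unique

section Tr
variable {K : Type*} [Field K]

/-- the elements of `L` algebraic over the algebra generated by `y` form a subfield -/
noncomputable def algSub {L : Type*} [Field L] [Algebra K L] {ι : Type*} (y : ι → L) :
    Subfield L where
  carrier := {z | IsAlgebraic (Algebra.adjoin K (Set.range y)) z}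
  mul_mem' ha hb := ha.mul hb
  one_mem' := isAlgebraic_one
  add_mem' ha hb := ha.add hb
  zero_mem' := isAlgebraic_zero
  neg_mem' ha := ha.neg
  inv_mem' _ ha := IsAlgebraic.inv_iff.2 ha

lemma mem_algSub_self {L : Type*} [Field L] [Algebra K L] {ι : Type*} (y : ι → L) (i : ι) :
    y i ∈ algSub (K := K) y :=
  isAlgebraic_algebraMap (⟨y i, Algebra.subset_adjoin ⟨i, rfl⟩⟩ :
    Algebra.adjoin K (Set.range y))

lemma mem_algSub_const {L : Type*} [Field L] [Algebra K L] {ι : Type*} (y : ι → L) (c : K) :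
    algebraMap K L c ∈ algSub (K := K) y :=
  isAlgebraic_algebraMap (algebraMap K (Algebra.adjoin K (Set.range y)) c)

lemma mem_algSub_of_pow {L : Type*} [Field L] [Algebra K L] {ι : Type*} (y : ι → L) {z : L}
    {n : ℕ} (hn : 0 < n) (h : z ^ n ∈ algSub (K := K) y) : z ∈ algSub (K := K) y :=
  IsAlgebraic.of_pow hn h

lemma algInd_of_mem {N : ℕ} {y : Fin N → FractionRing (MvPolynomial (Fin N) K)}
    (h : ∀ i, algebraMap (MvPolynomial (Fin N) K) (FractionRing (MvPolynomial (Fin N) K)) (X i)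
      ∈ algSub (K := K) y) : AlgebraicIndependent K y := by
  have hp : ∀ p : MvPolynomial (Fin N) K, algebraMap (MvPolynomial (Fin N) K)
      (FractionRing (MvPolynomial (Fin N) K)) p ∈ algSub (K := K) y := by
    intro p
    induction p using MvPolynomial.induction_on with
    | C c => exact mem_algSub_const y c
    | add p q hp hq => rw [map_add]; exact add_mem hp hq
    | mul_X p i hp => rw [map_mul]; exact mul_mem hp (h i)
  have hall : ∀ z : FractionRing (MvPolynomial (Fin N) K), z ∈ algSub (K := K) y := by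
    intro z
    obtain ⟨p, q, _, rfl⟩ := IsFractionRing.div_surjective (A := MvPolynomial (Fin N) K) z
    exact div_mem (hp p) (hp q)
  have : Algebra.IsAlgebraic (Algebra.adjoin K (Set.range y))
      (FractionRing (MvPolynomial (Fin N) K)) := ⟨hall⟩
  have hx : AlgebraicIndependent K
      (fun i : Fin N => algebraMap (MvPolynomial (Fin N) K)
        (FractionRing (MvPolynomial (Fin N) K)) (X i)) := by
    have h0 : AlgebraicIndependent K (X : Fin N → MvPolynomial (Fin N) K) :=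
      MvPolynomial.algebraicIndependent_X _ _
    exact h0.map' (f := IsScalarTower.toAlgHom K (MvPolynomial (Fin N) K)
      (FractionRing (MvPolynomial (Fin N) K)))
      (IsFractionRing.injective (MvPolynomial (Fin N) K) (FractionRing (MvPolynomial (Fin N) K)))
  have hle := hx.lift_cardinalMk_le_trdeg
  refine (Algebra.IsAlgebraic.isTranscendenceBasis_of_lift_le_trdeg_of_finite K y ?_).1
  simpa using hle

end Tr


section Sequence

/-- coordinates of (3+w)^n in the basis 1, w -/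
def pq : ℕ → ℤ × ℤ
  | 0 => (1, 0)
  | n + 1 => (3 * (pq n).1 - (pq n).2, (pq n).1 + 2 * (pq n).2)

def tau (n : ℕ) : ℤ :=
  max ((pq n).1 + (pq n).2) (max ((pq n).2 - 2 * (pq n).1) ((pq n).1 - 2 * (pq n).2))

def D (n : ℕ) : ℤ := 1 + ∑ j ∈ Finset.range n, tau (j + 1)

lemma norm_pq (n : ℕ) :
    (pq n).1 ^ 2 - (pq n).1 * (pq n).2 + (pq n).2 ^ 2 = 7 ^ n := by
  induction n with
  | zero => simp [pq]
  | succ n ih => rw [pow_succ (7:ℤ), ← ih]; simp only [pq]; ring

lemma pq_mod (n : ℕ) : (7 : ℤ) ∣ (pq (n + 1)).1 - 3 * (pq (n + 1)).2 ∧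
    ¬ (7 : ℤ) ∣ (pq (n + 1)).2 := by
  induction n with
  | zero => simp [pq]
  | succ n ih =>
    obtain ⟨h1, h2⟩ := ih
    have e1 : (pq (n + 1 + 1)).1 = 3 * (pq (n + 1)).1 - (pq (n + 1)).2 := rfl
    have e2 : (pq (n + 1 + 1)).2 = (pq (n + 1)).1 + 2 * (pq (n + 1)).2 := rfl
    rw [e1, e2]
    constructor
    · omega
    · omega

lemma pq_gen {n : ℕ} (hn : n ≠ 0) : (pq n).1 ≠ 0 ∧ (pq n).2 ≠ 0 ∧ (pq n).1 ≠ (pq n).2 := by
  obtain ⟨m, rfl⟩ := Nat.exists_eq_succ_of_ne_zero hn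
  have := pq_mod m
  simp only [Nat.succ_eq_add_one]
  obtain ⟨h1, h2⟩ := this
  refine ⟨?_, ?_, ?_⟩ <;> omega

/-- real linear coordinates on the complex plane -/
noncomputable def P (z : ℂ) : ℝ := z.re + z.im / √3
noncomputable def Q (z : ℂ) : ℝ := 2 * z.im / √3

lemma continuous_P : Continuous P := by
  unfold P; fun_prop

lemma continuous_Q : Continuous Q := by
  unfold Q; fun_prop

noncomputable def al : ℂ := ⟨5/2, √3/2⟩

lemma sq3 : √3 * √3 = 3 := Real.mul_self_sqrt (by norm_num)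

lemma al_pow (n : ℕ) : P (al ^ n) = (pq n).1 ∧ Q (al ^ n) = (pq n).2 := by
  have h3 : √3 ≠ 0 := by positivity
  have h33 := sq3
  induction n with
  | zero => simp [P, Q, pq]
  | succ n ih =>
    obtain ⟨h1, h2⟩ := ih
    have e1 : (pq (n + 1)).1 = 3 * (pq n).1 - (pq n).2 := rfl
    have e2 : (pq (n + 1)).2 = (pq n).1 + 2 * (pq n).2 := rfl
    rw [e1, e2]
    push_cast
    rw [← h1, ← h2, pow_succ]
    unfold P Q al
    simp only [Complex.mul_re, Complex.mul_im]
    constructor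
    · field_simp
      have : √3 ^ 2 = 3 := by rw [sq, h33]
      ring_nf
      rw [this]; ring
    · field_simp
      ring_nf

lemma norm_al : ‖al‖ = √7 := by
  rw [Complex.norm_def]
  congr 1
  unfold al
  rw [Complex.normSq_mk]
  have : √3 * √3 = 3 := sq3
  ring_nf
  rw [Real.sq_sqrt (by norm_num)]; norm_num

noncomputable def u : Circle := ⟨al / (√7 : ℝ), by
  rw [Submonoid.unitSphere, Submonoid.mem_mk, Subsemigroup.mem_mk, mem_sphere_zero_iff_norm]
  rw [norm_div, norm_al, Complex.norm_real, Real.norm_eq_abs, abs_of_nonneg (by positivity)]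
  exact div_self (by positivity)⟩

lemma coe_u : (u : ℂ) = al / (√7 : ℝ) := rfl

lemma P_smul (r : ℝ) (z : ℂ) : P (z / (r : ℂ)) = P z / r := by
  unfold P
  rw [Complex.div_ofReal_re, Complex.div_ofReal_im]; ring

lemma Q_smul (r : ℝ) (z : ℂ) : Q (z / (r : ℂ)) = Q z / r := by
  unfold Q
  rw [Complex.div_ofReal_im]; ring

lemma P_u (n : ℕ) : P ((u ^ n : Circle) : ℂ) = (pq n).1 / √7 ^ n := by
  rw [Circle.coe_pow, coe_u, div_pow, ← Complex.ofReal_pow, P_smul, (al_pow n).1]

lemma Q_u (n : ℕ) : Q ((u ^ n : Circle) : ℂ) = (pq n).2 / √7 ^ n := by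
  rw [Circle.coe_pow, coe_u, div_pow, ← Complex.ofReal_pow, Q_smul, (al_pow n).2]

lemma P_inv (w : Circle) : P ((w⁻¹ : Circle) : ℂ) = P w - Q w := by
  rw [Circle.coe_inv_eq_conj]
  unfold P Q
  rw [Complex.conj_re, Complex.conj_im]; ring

lemma Q_inv (w : Circle) : Q ((w⁻¹ : Circle) : ℂ) = - Q w := by
  rw [Circle.coe_inv_eq_conj]
  unfold Q
  rw [Complex.conj_im]; ring

def Gen (w : Circle) : Prop := P w ≠ 0 ∧ Q w ≠ 0 ∧ P w ≠ Q w

lemma gen_pow {n : ℕ} (hn : n ≠ 0) : Gen (u ^ n) := by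
  obtain ⟨h1, h2, h3⟩ := pq_gen hn
  have h7 : √7 ^ n ≠ 0 := by positivity
  refine ⟨?_, ?_, ?_⟩
  · rw [P_u]; exact div_ne_zero (by exact_mod_cast h1) h7
  · rw [Q_u]; exact div_ne_zero (by exact_mod_cast h2) h7
  · rw [P_u, Q_u]; intro h
    rw [div_left_inj' h7] at h
    exact h3 (by exact_mod_cast h)

lemma gen_inv {w : Circle} (h : Gen w) : Gen w⁻¹ := by
  obtain ⟨h1, h2, h3⟩ := h
  refine ⟨?_, ?_, ?_⟩
  · rw [P_inv]; exact sub_ne_zero.2 h3
  · rw [Q_inv]; exact neg_ne_zero.2 h2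
  · rw [P_inv, Q_inv]; intro h; apply h1; linarith

lemma gen_zpow {n : ℤ} (hn : n ≠ 0) : Gen (u ^ n) := by
  rcases lt_or_gt_of_ne hn with h | h
  · obtain ⟨m, hm⟩ := Int.eq_ofNat_of_zero_le (a := -n) (by omega)
    have : n = -(m : ℤ) := by omega
    rw [this, zpow_neg, zpow_natCast]
    exact gen_inv (gen_pow (by omega))
  · obtain ⟨m, hm⟩ := Int.eq_ofNat_of_zero_le (a := n) (by omega)
    rw [hm, zpow_natCast]
    exact gen_pow (by omega)

/-- the three linear forms whose maximum is the gauge -/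
def hR (i : Fin 3) (p q : ℝ) : ℝ := ![p + q, q - 2 * p, p - 2 * q] i
def hZ (i : Fin 3) (p q : ℤ) : ℤ := ![p + q, q - 2 * p, p - 2 * q] i

def Sec (i : Fin 3) (w : Circle) : Prop := ∀ j, j ≠ i → hR j (P w) (Q w) < hR i (P w) (Q w)

lemma exists_sec {w : Circle} (h : Gen w) : ∃ i, Sec i w := by
  obtain ⟨h1, h2, h3⟩ := h
  unfold Sec hR
  generalize P w = p at *
  generalize Q w = q at *
  rcases lt_or_gt_of_ne h1 with a | a <;> rcases lt_or_gt_of_ne h2 with b | b <;>
    rcases lt_or_gt_of_ne h3 with c | c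
  · refine ⟨1, fun j hj => ?_⟩
    fin_cases j <;> simp at * <;> linarith
  · refine ⟨2, fun j hj => ?_⟩
    fin_cases j <;> simp at * <;> linarith
  · refine ⟨1, fun j hj => ?_⟩
    fin_cases j <;> simp at * <;> linarith
  · refine ⟨1, fun j hj => ?_⟩
    fin_cases j <;> simp at * <;> linarith
  · refine ⟨2, fun j hj => ?_⟩
    fin_cases j <;> simp at * <;> linarith
  · refine ⟨2, fun j hj => ?_⟩
    fin_cases j <;> simp at * <;> linarith
  · refine ⟨0, fun j hj => ?_⟩
    fin_cases j <;> simp at * <;> linarith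
  · refine ⟨0, fun j hj => ?_⟩
    fin_cases j <;> simp at * <;> linarith

lemma isOpen_sec (i : Fin 3) : IsOpen {w : Circle | Sec i w} := by
  have : {w : Circle | Sec i w} =
      ⋂ j : Fin 3, {w : Circle | j ≠ i → hR j (P w) (Q w) < hR i (P w) (Q w)} := by
    ext w; simp [Sec]
  rw [this]
  apply isOpen_iInter_of_finite
  intro j
  by_cases hj : j = i
  · simp [hj]
  · simp only [ne_eq, hj, not_false_eq_true, forall_const]
    have hc : ∀ k : Fin 3, Continuous (fun w : Circle => hR k (P w) (Q w)) := by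
      intro k
      have hP : Continuous (fun w : Circle => P w) := continuous_P.comp continuous_subtype_val
      have hQ : Continuous (fun w : Circle => Q w) := continuous_Q.comp continuous_subtype_val
      unfold hR
      fin_cases k <;> simp <;> fun_prop
    exact isOpen_lt (hc _) (hc _)

lemma tau_of_sec {n : ℕ} {i : Fin 3} (h : Sec i (u ^ n)) : tau n = hZ i (pq n).1 (pq n).2 := by
  have h7 : 0 < √7 ^ n := by positivity
  unfold Sec hR at h
  simp only [P_u, Q_u] at h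
  have key : ∀ j, j ≠ i → hZ j (pq n).1 (pq n).2 < hZ i (pq n).1 (pq n).2 := by
    intro j hj
    have h2 := h j hj
    unfold hZ
    set a := (pq n).1
    set b := (pq n).2
    set s := √7 ^ n
    have h3 : (((![a + b, b - 2 * a, a - 2 * b] : Fin 3 → ℤ) j : ℤ) : ℝ) <
        (((![a + b, b - 2 * a, a - 2 * b] : Fin 3 → ℤ) i : ℤ) : ℝ) := by
      have e : ∀ k : Fin 3, (((![a + b, b - 2 * a, a - 2 * b] : Fin 3 → ℤ) k : ℤ) : ℝ) =
          (![(a : ℝ) / s + b / s, b / s - 2 * (a / s), a / s - 2 * (b / s)] : Fin 3 → ℝ) k * s := by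
        intro k
        have : s ≠ 0 := h7.ne'
        fin_cases k <;> simp <;> field_simp
      rw [e, e]
      exact mul_lt_mul_of_pos_right h2 h7
    exact_mod_cast h3
  unfold tau
  have k0 := key 0
  have k1 := key 1
  have k2 := key 2
  unfold hZ at *
  fin_cases i <;> simp at * <;> omega

/-- near the direction 1 -/
def N1 (w : Circle) : Prop := 0 < P w ∧ Q w < P w

lemma continuous_Pc : Continuous (fun w : Circle => P w) := continuous_P.comp continuous_subtype_val
lemma continuous_Qc : Continuous (fun w : Circle => Q w) := continuous_Q.comp continuous_subtype_val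

lemma isOpen_N1 : IsOpen {w : Circle | N1 w} := by
  have : {w : Circle | N1 w} = {w : Circle | 0 < P w} ∩ {w : Circle | Q w < P w} := rfl
  rw [this]
  exact (isOpen_lt continuous_const continuous_Pc).inter (isOpen_lt continuous_Qc continuous_Pc)

lemma N1_one : N1 1 := by
  unfold N1 P Q; simp

lemma sec_of_N1_pos {w : Circle} (h : N1 w) (h2 : 0 < Q w) : Sec 0 w := by
  obtain ⟨a, b⟩ := h
  unfold Sec hR
  intro j hj
  fin_cases j <;> simp at * <;> linarith

lemma sec_of_N1_neg {w : Circle} (h : N1 w) (h2 : Q w < 0) : Sec 2 w := by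
  obtain ⟨a, b⟩ := h
  unfold Sec hR
  intro j hj
  fin_cases j <;> simp at * <;> linarith

lemma not_torsion {n : ℕ} (hn : n ≠ 0) : u ^ n ≠ 1 := by
  intro h
  have := gen_pow hn
  rw [h] at this
  apply this.2.1
  unfold Q; simp

lemma freq_of_open {c Pd : ℕ} (hP : 0 < Pd) {U : Set Circle} (hU : IsOpen U) (hne : U.Nonempty)
    (v : Circle) (hv : ∀ n : ℕ, n ≠ 0 → v ^ n ≠ 1) :
    ∃ᶠ n : ℕ in atTop, n ≡ c [MOD Pd] ∧ v ^ n ∈ U := by
  obtain ⟨x, hx⟩ := hne
  have hdense : DenseRange (fun n : ℤ => (v ^ Pd) ^ n) := by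
    have : Fact ((0:ℝ) < 1) := ⟨one_pos⟩
    obtain ⟨a, ha⟩ := (AddCircle.homeomorphCircle (T := 1) one_ne_zero).surjective (v ^ Pd)
    have ha' : AddCircle.toCircle a = v ^ Pd := by rw [← ha]; simp [AddCircle.homeomorphCircle_apply]
    have e : (fun n : ℤ => (v ^ Pd) ^ n) =
        (AddCircle.homeomorphCircle (T := 1) one_ne_zero) ∘ (fun n : ℤ => n • a) := by
      funext n
      simp only [Function.comp]
      rw [← ha', AddCircle.homeomorphCircle_apply, AddCircle.toCircle_zsmul]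
    rw [e]
    apply DenseRange.comp (AddCircle.homeomorphCircle (T := 1) one_ne_zero).surjective.denseRange _
      (AddCircle.homeomorphCircle (T := 1) one_ne_zero).continuous
    rw [AddCircle.denseRange_zsmul_iff, addOrderOf_eq_zero_iff']
    intro n hn h
    apply hv (Pd * n) (by positivity)
    rw [pow_mul, ← ha', ← AddCircle.toCircle_nsmul, h, AddCircle.toCircle_zero]
  have h1 : (x * (v ^ c)⁻¹) ∈ closure (Set.range (fun n : ℤ => (v ^ Pd) ^ n)) := hdense _
  have h2 : MapClusterPt (x * (v ^ c)⁻¹) atTop (fun n : ℕ => (v ^ Pd) ^ n) :=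
    ((mapClusterPt_atTop_pow_tfae _ _).out 3 0).1 h1
  have h3 : {w : Circle | w * v ^ c ∈ U} ∈ 𝓝 (x * (v ^ c)⁻¹) := by
    apply IsOpen.mem_nhds
    · exact hU.preimage (continuous_mul_const _)
    · simpa using hx
  have h4 := h2.frequently h3
  have h5 : Tendsto (fun n : ℕ => Pd * n + c) atTop atTop := by
    apply tendsto_atTop_mono (f := fun n => n) _ tendsto_id
    intro n; nlinarith
  apply h5.frequently
  apply h4.mono
  intro n hn
  refine ⟨?_, ?_⟩
  · simp [Nat.ModEq]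
  · rw [pow_add, pow_mul]; exact hn

/-- residues occurring infinitely often in a class and with direction in `U` -/
def SS (l Pd c : ℕ) (U : Set Circle) : Set (ZMod l) :=
  {s | ∃ᶠ n : ℕ in atTop, n ≡ c [MOD Pd] ∧ u ^ n ∈ U ∧ ((D n : ℤ) : ZMod l) = s}

lemma SS_mono {l Pd c : ℕ} {U V : Set Circle} (h : U ⊆ V) : SS l Pd c U ⊆ SS l Pd c V := by
  intro s hs
  apply Frequently.mono hs
  rintro n ⟨h1, h2, h3⟩
  exact ⟨h1, h h2, h3⟩

lemma SS_nonempty {l Pd c : ℕ} [NeZero l] (hP : 0 < Pd) {U : Set Circle} (hU : IsOpen U)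
    (hne : U.Nonempty) : (SS l Pd c U).Nonempty := by
  by_contra h
  rw [Set.not_nonempty_iff_eq_empty] at h
  have h1 : ∀ s : ZMod l, ∀ᶠ n : ℕ in atTop,
      ¬ (n ≡ c [MOD Pd] ∧ u ^ n ∈ U ∧ ((D n : ℤ) : ZMod l) = s) := by
    intro s
    have : s ∉ SS l Pd c U := by rw [h]; simp
    exact not_frequently.1 this
  have h2 := eventually_all.2 h1
  have h3 := (freq_of_open (c := c) hP hU hne u (fun n hn => not_torsion hn)).and_eventually h2
  obtain ⟨n, ⟨h4, h5⟩, h6⟩ := h3.exists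
  exact h6 _ ⟨h4, h5, rfl⟩

lemma per_mod {l Pd N0 : ℕ}
    (per : ∀ n, N0 ≤ n → (((pq (n + Pd)).1 : ℤ) : ZMod l) = (pq n).1 ∧
      (((pq (n + Pd)).2 : ℤ) : ZMod l) = (pq n).2) {a b : ℕ} (ha : N0 ≤ a) (hb : N0 ≤ b)
    (hab : a ≡ b [MOD Pd]) :
    (((pq a).1 : ℤ) : ZMod l) = (pq b).1 ∧ (((pq a).2 : ℤ) : ZMod l) = (pq b).2 := by
  have key : ∀ t a : ℕ, N0 ≤ a → (((pq (a + Pd * t)).1 : ℤ) : ZMod l) = (pq a).1 ∧
      (((pq (a + Pd * t)).2 : ℤ) : ZMod l) = (pq a).2 := by
    intro t a ha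
    induction t with
    | zero => simp
    | succ t ih =>
      have := per (a + Pd * t) (by omega)
      rw [show a + Pd * (t + 1) = a + Pd * t + Pd by ring]
      exact ⟨this.1.trans ih.1, this.2.trans ih.2⟩
  rcases le_total a b with h | h
  · obtain ⟨t, ht⟩ := (Nat.modEq_iff_dvd' h).1 hab
    have : b = a + Pd * t := by omega
    rw [this]
    exact ⟨(key t a ha).1.symm, (key t a ha).2.symm⟩
  · obtain ⟨t, ht⟩ := (Nat.modEq_iff_dvd' h).1 hab.symm
    have : a = b + Pd * t := by omega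
    rw [this]
    exact key t b hb

lemma hZ_cast {l : ℕ} (i : Fin 3) {a b a' b' : ℤ} (h1 : (a : ZMod l) = a') (h2 : (b : ZMod l) = b') :
    ((hZ i a b : ℤ) : ZMod l) = (hZ i a' b' : ℤ) := by
  unfold hZ
  fin_cases i <;> simp [h1, h2]

lemma D_shift (n K : ℕ) : D (n + K) = D n + ∑ i ∈ Finset.range K, tau (n + i + 1) := by
  unfold D
  rw [Finset.sum_range_add]
  ring

lemma shift {l Pd N0 c0 K : ℕ}
    (per : ∀ n, N0 ≤ n → (((pq (n + Pd)).1 : ℤ) : ZMod l) = (pq n).1 ∧
      (((pq (n + Pd)).2 : ℤ) : ZMod l) = (pq n).2) (hc0 : N0 ≤ c0) (hK : K ≡ 0 [MOD Pd])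
    {U0 W : Set Circle} (σ : ℕ → Fin 3) (hW1 : ∀ w ∈ W, w * u ^ K ∈ U0)
    (hW2 : ∀ w ∈ W, ∀ i ∈ Finset.range K, Sec (σ i) (w * u ^ (i + 1)))
    {s : ZMod l} (hs : s ∈ SS l Pd c0 W) :
    s + ∑ i ∈ Finset.range K, ((hZ (σ i) (pq (c0 + i + 1)).1 (pq (c0 + i + 1)).2 : ℤ) : ZMod l)
      ∈ SS l Pd c0 U0 := by
  unfold SS at *
  have h1 : Tendsto (fun n : ℕ => n + K) atTop atTop := tendsto_add_atTop_nat K
  apply h1.frequently
  apply (hs.and_eventually (eventually_ge_atTop N0)).mono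
  rintro n ⟨⟨h2, h3, h4⟩, h5⟩
  refine ⟨?_, ?_, ?_⟩
  · simpa using h2.add hK
  · rw [pow_add]; exact hW1 _ h3
  · rw [D_shift, ← h4]
    push_cast
    congr 1
    apply Finset.sum_congr rfl
    intro i hi
    have h6 := hW2 _ h3 i hi
    rw [← pow_add, ← add_assoc] at h6
    rw [tau_of_sec h6]
    have h7 : n + i + 1 ≡ c0 + i + 1 [MOD Pd] := (h2.add_right i).add_right 1
    have h8 := per_mod per (a := n + i + 1) (b := c0 + i + 1) (by omega) (by omega) h7
    exact hZ_cast _ h8.1 h8.2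

lemma all_of_closed {l : ℕ} [Fact l.Prime] {S : Set (ZMod l)} (hne : S.Nonempty) {a b : ZMod l}
    (ha : ∀ s ∈ S, s + a ∈ S) (hb : ∀ s ∈ S, s + b ∈ S) (hab : a - b ≠ 0) : S = Set.univ := by
  have hb' : ∀ t : ℕ, ∀ s ∈ S, s + t * b ∈ S := by
    intro t
    induction t with
    | zero => intro s hs; simpa using hs
    | succ t ih =>
      intro s hs
      have := hb _ (ih s hs)
      convert this using 1
      push_cast; ring
  have hc : ∀ s ∈ S, s + (a - b) ∈ S := by
    intro s hs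
    have h1 := hb' (l - 1) _ (ha s hs)
    convert h1 using 1
    rw [Nat.cast_sub (Fact.out : l.Prime).one_le]
    simp; ring
  have hc' : ∀ t : ℕ, ∀ s ∈ S, s + t * (a - b) ∈ S := by
    intro t
    induction t with
    | zero => intro s hs; simpa using hs
    | succ t ih =>
      intro s hs
      have := hc _ (ih s hs)
      convert this using 1
      push_cast; ring
  rw [Set.eq_univ_iff_forall]
  intro x
  obtain ⟨s, hs⟩ := hne
  have := hc' ((x - s) / (a - b)).val s hs
  rw [ZMod.natCast_zmod_val] at this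
  rw [div_mul_cancel₀ _ hab] at this
  simpa using this

lemma exists_q_ne {l : ℕ} [Fact l.Prime] (h7 : l ≠ 7) (N0 : ℕ) :
    ∃ j, N0 ≤ j ∧ (((pq j).2 : ℤ) : ZMod l) ≠ 0 := by
  by_contra h
  push Not at h
  have h1 := h N0 le_rfl
  have h2 := h (N0 + 1) (by omega)
  have e2 : (pq (N0 + 1)).2 = (pq N0).1 + 2 * (pq N0).2 := rfl
  rw [e2] at h2
  push_cast at h2
  rw [h1] at h2
  have h3 := norm_pq N0
  have h4 := congrArg (fun z : ℤ => (z : ZMod l)) h3
  push_cast at h4
  rw [h1] at h4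
  have h5 : (((pq N0).1 : ℤ) : ZMod l) = 0 := by simpa using h2
  rw [h5] at h4
  have h6 : (7 : ZMod l) ^ N0 = 0 := by rw [← h4]; ring
  have h8 : (7 : ZMod l) = 0 := by
    rcases Nat.eq_zero_or_pos N0 with h0 | h0
    · subst h0; simp at h6
    · exact pow_eq_zero_iff (by omega) |>.1 h6
  have h9 : ((7 : ℕ) : ZMod l) = 0 := by exact_mod_cast h8
  rw [ZMod.natCast_eq_zero_iff] at h9
  have := (Nat.prime_dvd_prime_iff_eq (Fact.out : l.Prime) (by norm_num)).1 h9
  exact h7 this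

lemma exists_near {W : Set Circle} (hW : IsOpen W) {v : Circle} (hv : v ∈ W) :
    (∃ w ∈ W, 0 < Q (v⁻¹ * w : Circle)) ∧ (∃ w ∈ W, Q (v⁻¹ * w : Circle) < 0) := by
  have hc : Continuous (fun t : ℝ => v * Circle.exp t) := by fun_prop
  have h0 : ∀ᶠ t : ℝ in 𝓝 0, v * Circle.exp t ∈ W := by
    apply hc.continuousAt.eventually_mem
    apply hW.mem_nhds
    simpa using hv
  have hQ : ∀ t : ℝ, Q (v⁻¹ * (v * Circle.exp t) : Circle) = 2 * Real.sin t / √3 := by
    intro t
    rw [inv_mul_cancel_left]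
    unfold Q
    rw [Circle.coe_exp, Complex.exp_ofReal_mul_I_im]
  constructor
  · have h1 : ∀ᶠ t : ℝ in 𝓝[>] 0, v * Circle.exp t ∈ W := h0.filter_mono nhdsWithin_le_nhds
    have h2 : ∀ᶠ t : ℝ in 𝓝[>] 0, t ∈ Set.Ioo 0 Real.pi :=
      Ioo_mem_nhdsGT Real.pi_pos
    obtain ⟨t, h3, h4⟩ := (h1.and h2).exists
    refine ⟨_, h3, ?_⟩
    rw [hQ]
    have := Real.sin_pos_of_mem_Ioo h4
    positivity
  · have h1 : ∀ᶠ t : ℝ in 𝓝[<] 0, v * Circle.exp t ∈ W := h0.filter_mono nhdsWithin_le_nhds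
    have h2 : ∀ᶠ t : ℝ in 𝓝[<] 0, t ∈ Set.Ioo (-Real.pi) 0 :=
      Ioo_mem_nhdsLT (by linarith [Real.pi_pos])
    obtain ⟨t, h3, h4⟩ := (h1.and h2).exists
    refine ⟨_, h3, ?_⟩
    rw [hQ]
    have := Real.sin_neg_of_neg_of_neg_pi_lt h4.2 h4.1
    apply div_neg_of_neg_of_pos (by linarith) (by positivity)

theorem rot_main {l : ℕ} [Fact l.Prime] (h3 : l ≠ 3) (h7 : l ≠ 7) {Pd N0 : ℕ} (hP : 0 < Pd)
    (per : ∀ n, N0 ≤ n → (((pq (n + Pd)).1 : ℤ) : ZMod l) = (pq n).1 ∧
      (((pq (n + Pd)).2 : ℤ) : ZMod l) = (pq n).2) :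
    ∃ c, ∀ s : ZMod l, ∃ᶠ n : ℕ in atTop, n ≡ c [MOD Pd] ∧ ((D n : ℤ) : ZMod l) = s := by
  classical
  let Good : ℕ → Prop := fun k => ∃ (c : ℕ) (U : Set Circle), N0 ≤ c ∧ IsOpen U ∧ U.Nonempty ∧
    (SS l Pd c U).ncard = k
  have hG : ∃ k, Good k := ⟨_, N0, Set.univ, le_rfl, isOpen_univ, Set.univ_nonempty, rfl⟩
  obtain ⟨c0, U0, hc0, hU0, hne0, hcard⟩ := Nat.find_spec hG
  have hmin : ∀ c U, N0 ≤ c → IsOpen U → U.Nonempty →
      (SS l Pd c0 U0).ncard ≤ (SS l Pd c U).ncard := by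
    intro c U h1 h2 h4
    rw [hcard]
    exact Nat.find_min' hG ⟨c, U, h1, h2, h4, rfl⟩
  have heq : ∀ W ⊆ U0, IsOpen W → W.Nonempty → SS l Pd c0 W = SS l Pd c0 U0 := by
    intro W h1 h2 h4
    exact Set.eq_of_subset_of_ncard_le (SS_mono h1) (hmin c0 W hc0 h2 h4) (Set.toFinite _)
  obtain ⟨j1, hj1, hq1⟩ := exists_q_ne (l := l) h7 N0
  -- choose k'
  have huinv : ∀ n : ℕ, n ≠ 0 → (u⁻¹) ^ n ≠ 1 := by
    intro n hn h
    rw [inv_pow, inv_eq_one] at h
    exact not_torsion hn h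
  obtain ⟨k', ⟨hk1, hk2⟩, hk3⟩ := ((freq_of_open (c := j1 + c0 * (Pd - 1)) hP hU0 hne0 u⁻¹
    huinv).and_eventually (eventually_ge_atTop 1)).exists
  obtain ⟨k, hk4, hk5⟩ := (freq_of_open (c := k' * (Pd - 1)) hP hU0 hne0 u
    (fun n hn => not_torsion hn)).exists
  have hK : k + k' ≡ 0 [MOD Pd] := by
    have h1 : k + k' ≡ k' * (Pd - 1) + k' [MOD Pd] := hk4.add_right k'
    have h2 : k' * (Pd - 1) + k' = Pd * k' := by
      obtain ⟨m, rfl⟩ : ∃ m, Pd = m + 1 := ⟨Pd - 1, by omega⟩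
      simp; ring
    rw [h2] at h1
    exact h1.trans (by simp [Nat.ModEq])
  have hcj : c0 + k' ≡ j1 [MOD Pd] := by
    have h1 : c0 + k' ≡ c0 + (j1 + c0 * (Pd - 1)) [MOD Pd] := hk1.add_left c0
    have h2 : c0 + (j1 + c0 * (Pd - 1)) = j1 + Pd * c0 := by
      obtain ⟨m, rfl⟩ : ∃ m, Pd = m + 1 := ⟨Pd - 1, by omega⟩
      simp; ring
    rw [h2] at h1
    exact h1.trans (by simp [Nat.ModEq])
  have hqc : (((pq (c0 + k')).2 : ℤ) : ZMod l) ≠ 0 := by
    rw [(per_mod per (by omega) hj1 hcj).2]; exact hq1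
  -- sectors
  have hsec : ∀ i : ℕ, ∃ s : Fin 3, i + 1 ≠ k' → Sec s (u ^ ((i : ℤ) + 1 - k')) := by
    intro i
    by_cases h : i + 1 = k'
    · exact ⟨0, fun h' => absurd h h'⟩
    · obtain ⟨s, hs⟩ := exists_sec (gen_zpow (n := (i : ℤ) + 1 - k') (by omega))
      exact ⟨s, fun _ => hs⟩
  choose σ hσ using hsec
  set W : Set Circle := (U0 ∩ {w | w * u ^ (k + k') ∈ U0}) ∩
    ((⋂ i ∈ Finset.range (k + k'), {w | i + 1 ≠ k' → Sec (σ i) (w * u ^ (i + 1))}) ∩
      {w | N1 (w * u ^ k')}) with hWdef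
  have hWopen : IsOpen W := by
    apply IsOpen.inter
    · exact hU0.inter (hU0.preimage (continuous_mul_const _))
    · apply IsOpen.inter
      · apply isOpen_biInter_finset
        intro i _
        by_cases h : i + 1 = k'
        · simp [h]
        · simp only [ne_eq, h, not_false_eq_true, forall_const]
          exact (isOpen_sec (σ i)).preimage (continuous_mul_const _)
      · exact isOpen_N1.preimage (continuous_mul_const _)
  have hvW : (u⁻¹) ^ k' ∈ W := by
    refine ⟨⟨hk2, ?_⟩, ?_, ?_⟩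
    · show (u⁻¹) ^ k' * u ^ (k + k') ∈ U0
      rw [inv_pow, pow_add, mul_comm (u ^ k), inv_mul_cancel_left]
      exact hk5
    · simp only [Set.mem_iInter]
      intro i _ hi
      have h1 := hσ i hi
      have h2 : (u⁻¹) ^ k' * u ^ (i + 1) = u ^ ((i : ℤ) + 1 - k') := by
        rw [zpow_sub, inv_pow, mul_comm]
        norm_cast
      rw [h2]
      exact h1
    · show N1 ((u⁻¹) ^ k' * u ^ k')
      rw [inv_pow, inv_mul_cancel]
      exact N1_one
  set Wp : Set Circle := W ∩ {w | 0 < Q (w * u ^ k' : Circle)} with hWp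
  set Wm : Set Circle := W ∩ {w | Q (w * u ^ k' : Circle) < 0} with hWm
  have hcQ : Continuous (fun w : Circle => Q (w * u ^ k' : Circle)) :=
    continuous_Qc.comp (continuous_mul_const _)
  have hWpo : IsOpen Wp := hWopen.inter (isOpen_lt continuous_const hcQ)
  have hWmo : IsOpen Wm := hWopen.inter (isOpen_lt hcQ continuous_const)
  obtain ⟨⟨wp, hwp1, hwp2⟩, ⟨wm, hwm1, hwm2⟩⟩ := exists_near hWopen hvW
  have hinv : ((u⁻¹) ^ k')⁻¹ = u ^ k' := by rw [inv_pow, inv_inv]
  rw [hinv, mul_comm] at hwp2 hwm2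
  have hWpn : Wp.Nonempty := ⟨wp, hwp1, hwp2⟩
  have hWmn : Wm.Nonempty := ⟨wm, hwm1, hwm2⟩
  have hWU : W ⊆ U0 := fun w hw => hw.1.1
  have hSp := heq Wp (fun w hw => hWU hw.1) hWpo hWpn
  have hSm := heq Wm (fun w hw => hWU hw.1) hWmo hWmn
  set σp : ℕ → Fin 3 := fun i => if i + 1 = k' then 0 else σ i with hσp
  set σm : ℕ → Fin 3 := fun i => if i + 1 = k' then 2 else σ i with hσm
  have hp : ∀ s ∈ SS l Pd c0 U0, s + ∑ i ∈ Finset.range (k + k'),
      ((hZ (σp i) (pq (c0 + i + 1)).1 (pq (c0 + i + 1)).2 : ℤ) : ZMod l) ∈ SS l Pd c0 U0 := by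
    intro s hs
    rw [← hSp] at hs
    apply shift per hc0 hK σp (W := Wp) _ _ hs
    · rintro w ⟨hw, _⟩
      exact hw.1.2
    · rintro w ⟨hw, hw2⟩ i hi
      simp only [hσp]
      split_ifs with h
      · rw [h]
        exact sec_of_N1_pos hw.2.2 hw2
      · have := hw.2.1
        simp only [Set.mem_iInter] at this
        exact this i hi h
  have hm : ∀ s ∈ SS l Pd c0 U0, s + ∑ i ∈ Finset.range (k + k'),
      ((hZ (σm i) (pq (c0 + i + 1)).1 (pq (c0 + i + 1)).2 : ℤ) : ZMod l) ∈ SS l Pd c0 U0 := by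
    intro s hs
    rw [← hSm] at hs
    apply shift per hc0 hK σm (W := Wm) _ _ hs
    · rintro w ⟨hw, _⟩
      exact hw.1.2
    · rintro w ⟨hw, hw2⟩ i hi
      simp only [hσm]
      split_ifs with h
      · rw [h]
        exact sec_of_N1_neg hw.2.2 hw2
      · have := hw.2.1
        simp only [Set.mem_iInter] at this
        exact this i hi h
  have hdiff : (∑ i ∈ Finset.range (k + k'),
      ((hZ (σp i) (pq (c0 + i + 1)).1 (pq (c0 + i + 1)).2 : ℤ) : ZMod l)) -
      (∑ i ∈ Finset.range (k + k'),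
      ((hZ (σm i) (pq (c0 + i + 1)).1 (pq (c0 + i + 1)).2 : ℤ) : ZMod l)) ≠ 0 := by
    rw [← Finset.sum_sub_distrib]
    rw [Finset.sum_eq_single (k' - 1)]
    · have e : k' - 1 + 1 = k' := by omega
      simp only [hσp, hσm, e, if_true]
      rw [show c0 + (k' - 1) + 1 = c0 + k' by omega]
      unfold hZ
      simp
      intro h
      have h9 : (3 : ZMod l) * (pq (c0 + k')).2 = 0 := by linear_combination h
      rcases mul_eq_zero.1 h9 with h10 | h10
      · have h11 : ((3 : ℕ) : ZMod l) = 0 := by exact_mod_cast h10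
        rw [ZMod.natCast_eq_zero_iff] at h11
        exact h3 ((Nat.prime_dvd_prime_iff_eq (Fact.out : l.Prime) (by norm_num)).1 h11)
      · exact hqc h10
    · intro i _ hi
      have e : i + 1 ≠ k' := by omega
      simp only [hσp, hσm, e, if_false, sub_self]
    · intro h
      exfalso
      apply h
      rw [Finset.mem_range]; omega
  have hall := all_of_closed (SS_nonempty (c := c0) hP hU0 hne0) hp hm hdiff
  refine ⟨c0, fun s => ?_⟩
  have hs : s ∈ SS l Pd c0 U0 := by rw [hall]; trivial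
  apply Frequently.mono hs
  rintro n ⟨h1, _, h2⟩
  exact ⟨h1, h2⟩


lemma int_jacobson : IsJacobsonRing ℤ := by
  rw [isJacobsonRing_iff_prime_eq]
  intro P hP
  by_cases h : P = ⊥
  · subst h
    refine le_antisymm (fun x hx => ?_) Ideal.le_jacobson
    rw [Ideal.mem_jacobson_bot] at hx
    have h1 := hx x
    rw [Int.isUnit_iff] at h1
    rw [Ideal.mem_bot]
    rcases h1 with h1 | h1 <;> nlinarith
  · have := IsPrime.to_maximal_ideal h
    exact Ideal.jacobson_eq_self_of_isMaximal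

lemma finite_of_field_finiteType (F : Type) [Field F] [Algebra.FiniteType ℤ F] : Finite F := by
  have h0 := int_jacobson
  have h1 : Module.Finite ℤ F := finite_of_finite_type_of_isJacobsonRing ℤ F
  obtain ⟨p, hp⟩ := CharP.exists F
  have hp0 : p ≠ 0 := by
    rintro rfl
    have : CharZero F := CharP.charP_to_charZero F
    have hinj : Function.Injective (algebraMap ℤ F) := by
      intro a b hab
      simpa using hab
    have : Algebra.IsIntegral ℤ F := inferInstance
    exact Int.not_isField (isField_of_isIntegral_of_isField hinj (Field.toIsField F))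
  have : NeZero p := ⟨hp0⟩
  let _ : Algebra (ZMod p) F := ZMod.algebra F p
  have : Module.Finite (ZMod p) F := Module.Finite.of_restrictScalars_finite ℤ (ZMod p) F
  exact Module.finite_of_finite (ZMod p)

lemma finite_of_surj (B F : Type) [CommRing B] [Algebra.FiniteType ℤ B] [Field F] (f : B →+* F)
    (hf : Function.Surjective f) : Finite F := by
  have : Algebra.FiniteType ℤ F := Algebra.FiniteType.of_surjective f.toIntAlgHom hf
  exact finite_of_field_finiteType F

lemma exists_finite_quotient (G : Set ℂ) (hG : G.Finite) :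
    ∃ (F : Type) (_ : Field F) (_ : Finite F), Nonempty (Algebra.adjoin ℤ G →+* F) := by
  obtain ⟨I, hI⟩ := Ideal.exists_maximal (Algebra.adjoin ℤ G)
  let K := Ideal.Quotient.field I
  have h1 : Algebra.FiniteType ℤ (Algebra.adjoin ℤ G) := by
    rw [← Subalgebra.fg_iff_finiteType]
    exact Subalgebra.fg_def.2 ⟨G, hG, rfl⟩
  have h1' : @Algebra.FiniteType ℤ (Algebra.adjoin ℤ G) _ _ (Ring.toIntAlgebra _) := by
    convert h1
  refine ⟨_, K, ?_, ⟨Ideal.Quotient.mk I⟩⟩
  exact finite_of_surj (Algebra.adjoin ℤ G) _ (Ideal.Quotient.mk I) Ideal.Quotient.mk_surjective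



theorem not_union (r : ℕ) (L : Fin r → ℕ → ℂ) (hL : ∀ i, IsLinearRecurrence (L i)) (ι : ℕ → Fin r) :
    ∃ n, 1 ≤ n ∧ ((D n : ℤ) : ℂ) ≠ L (ι n) n := by
  classical
  by_contra hcon
  push Not at hcon
  choose k c hk hrec using hL
  set M : ℕ := (r + 7).factorial with hM
  set G : Set ℂ := (⋃ i : Fin r, Set.range (c i)) ∪
    (⋃ i : Fin r, ⋃ j : Fin (k i), {L i (j + 1)}) ∪ {((M : ℂ))⁻¹} with hG
  have hGf : G.Finite := by
    apply Set.Finite.union
    · apply Set.Finite.union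
      · exact Set.finite_iUnion fun i => Set.finite_range _
      · exact Set.finite_iUnion fun i => Set.finite_iUnion fun j => Set.finite_singleton _
    · exact Set.finite_singleton _
  obtain ⟨F, _, _, ⟨φ⟩⟩ := exists_finite_quotient G hGf
  have hsub : G ⊆ Algebra.adjoin ℤ G := Algebra.subset_adjoin
  have hc : ∀ i j, c i j ∈ Algebra.adjoin ℤ G := by
    intro i j
    apply hsub
    left; left
    exact Set.mem_iUnion.2 ⟨i, j, rfl⟩
  have hinit : ∀ i (j : Fin (k i)), L i (j + 1) ∈ Algebra.adjoin ℤ G := by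
    intro i j
    apply hsub
    left; right
    exact Set.mem_iUnion.2 ⟨i, Set.mem_iUnion.2 ⟨j, rfl⟩⟩
  have hMinv : ((M : ℂ))⁻¹ ∈ Algebra.adjoin ℤ G := hsub (Or.inr rfl)
  have hmem : ∀ i n, L i (n + 1) ∈ Algebra.adjoin ℤ G := by
    intro i n
    induction n using Nat.strong_induction_on with
    | _ n ih =>
      by_cases h : n < k i
      · exact hinit i ⟨n, h⟩
      · have h1 := hrec i (n + 1 - k i) (by have := hk i; omega)
        rw [show n + 1 - k i + k i = n + 1 by have := hk i; omega] at h1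
        rw [h1]
        apply Subalgebra.sum_mem
        intro j _
        apply Subalgebra.mul_mem _ (hc i j)
        have := ih (n - k i + j) (by have := j.2; omega)
        rw [show n + 1 - k i + (j : ℕ) = n - k i + j + 1 by omega]
        exact this
  set LF : Fin r → ℕ → F := fun i n => φ ⟨L i (n + 1), hmem i n⟩ with hLF
  set cF : ∀ i, Fin (k i) → F := fun i j => φ ⟨c i j, hc i j⟩ with hcF
  have hrecF : ∀ i n, LF i (n + k i) = ∑ j : Fin (k i), cF i j * LF i (n + j) := by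
    intro i n
    simp only [hLF, hcF, ← map_mul, ← map_sum]
    congr 1
    apply Subtype.ext
    have h1 := hrec i (n + 1) (by omega)
    rw [show n + 1 + k i = n + k i + 1 by ring] at h1
    simp only [h1]
    push_cast
    apply Finset.sum_congr rfl
    intro j _
    rw [show n + 1 + (j : ℕ) = n + j + 1 by ring]
  have hDF : ∀ n, ((D (n + 1) : ℤ) : F) = LF (ι (n + 1)) n := by
    intro n
    simp only [hLF]
    rw [← map_intCast φ]
    congr 1
    apply Subtype.ext
    have := hcon (n + 1) (by omega)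
    show (((D (n + 1) : ℤ) : Algebra.adjoin ℤ G) : ℂ) = L (ι (n + 1)) (n + 1)
    rw [← this]
    push_cast
    rfl
  -- characteristic
  obtain ⟨l, hchar⟩ := CharP.exists F
  have hM0 : (M : F) ≠ 0 := by
    intro h
    have h1 : (M : Algebra.adjoin ℤ G) * ⟨_, hMinv⟩ = 1 := by
      apply Subtype.ext
      push_cast
      exact mul_inv_cancel₀ (by exact_mod_cast (Nat.factorial_ne_zero _))
    have h2 := congrArg φ h1
    rw [map_mul, map_natCast, h, zero_mul, map_one] at h2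
    exact zero_ne_one h2
  have hl0 : l ≠ 0 := by
    rintro rfl
    have : CharZero F := CharP.charP_to_charZero F
    exact not_finite F
  have hlp : l.Prime := (CharP.char_is_prime_or_zero F l).resolve_right hl0
  have : Fact l.Prime := ⟨hlp⟩
  have hlr : r + 7 < l := by
    by_contra h
    push Not at h
    apply hM0
    rw [CharP.cast_eq_zero_iff F l]
    exact Nat.dvd_factorial hlp.pos h
  have hcast : ∀ a b : ℤ, ((a : ℤ) : F) = b ↔ ((a : ℤ) : ZMod l) = b := by
    intro a b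
    rw [CharP.intCast_eq_intCast F l, ZMod.intCast_eq_intCast_iff]
  -- the finite state space
  let st : ℕ → ((i : Fin r) → Fin (k i) → F) × F × F := fun n =>
    (fun i j => LF i (n + j), ((pq n).1 : ℤ), ((pq n).2 : ℤ))
  obtain ⟨a, b, hab, hst⟩ : ∃ a b, a < b ∧ st a = st b := by
    have hfin : Finite (((i : Fin r) → Fin (k i) → F) × F × F) := inferInstance
    obtain ⟨x, y, hxy, h⟩ := Finite.exists_ne_map_eq_of_infinite st
    rcases lt_or_gt_of_ne hxy with h1 | h1
    · exact ⟨x, y, h1, h⟩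
    · exact ⟨y, x, h1, h.symm⟩
  have hstep : ∀ t, st (a + t) = st (b + t) := by
    intro t
    induction t with
    | zero => exact hst
    | succ t ih =>
      have i1 : ∀ i (j : Fin (k i)), LF i (a + t + j) = LF i (b + t + j) := fun i j =>
        congrFun (congrFun (congrArg Prod.fst ih) i) j
      have i2 : (((pq (a + t)).1 : ℤ) : F) = ((pq (b + t)).1 : ℤ) :=
        congrArg (fun x => x.2.1) ih
      have i3 : (((pq (a + t)).2 : ℤ) : F) = ((pq (b + t)).2 : ℤ) :=
        congrArg (fun x => x.2.2) ih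
      have hk1 : ∀ i, LF i (a + t + k i) = LF i (b + t + k i) := by
        intro i
        rw [hrecF, hrecF]
        apply Finset.sum_congr rfl
        intro j _
        rw [i1]
      apply Prod.ext
      · funext i j
        show LF i (a + (t + 1) + j) = LF i (b + (t + 1) + j)
        by_cases hj : (j : ℕ) + 1 < k i
        · have := i1 i ⟨j + 1, hj⟩
          simp only at this
          rw [show a + (t + 1) + (j : ℕ) = a + t + (j + 1) by ring,
            show b + (t + 1) + (j : ℕ) = b + t + (j + 1) by ring]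
          exact this
        · have hj2 : (j : ℕ) + 1 = k i := by have := j.2; omega
          rw [show a + (t + 1) + (j : ℕ) = a + t + k i by omega,
            show b + (t + 1) + (j : ℕ) = b + t + k i by omega]
          exact hk1 i
      · apply Prod.ext
        · show (((pq (a + t + 1)).1 : ℤ) : F) = ((pq (b + t + 1)).1 : ℤ)
          simp only [pq]
          push_cast
          rw [i2, i3]
        · show (((pq (a + t + 1)).2 : ℤ) : F) = ((pq (b + t + 1)).2 : ℤ)
          simp only [pq]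
          push_cast
          rw [i2, i3]
  set Pd := b - a with hPd
  have hPpos : 0 < Pd := by omega
  have hper : ∀ n, a ≤ n → st (n + Pd) = st n := by
    intro n hn
    have := hstep (n - a)
    rw [show a + (n - a) = n by omega, show b + (n - a) = n + Pd by omega] at this
    exact this.symm
  have hperpq : ∀ n, a ≤ n → (((pq (n + Pd)).1 : ℤ) : ZMod l) = (pq n).1 ∧
      (((pq (n + Pd)).2 : ℤ) : ZMod l) = (pq n).2 := by
    intro n hn
    have h := hper n hn
    have i2 : (((pq (n + Pd)).1 : ℤ) : F) = ((pq n).1 : ℤ) := congrArg (fun x => x.2.1) h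
    have i3 : (((pq (n + Pd)).2 : ℤ) : F) = ((pq n).2 : ℤ) := congrArg (fun x => x.2.2) h
    exact ⟨(hcast _ _).1 i2, (hcast _ _).1 i3⟩
  have hperL : ∀ n, a ≤ n → ∀ i, LF i (n + Pd) = LF i n := by
    intro n hn i
    have h := hper n hn
    have := congrFun (congrFun (congrArg Prod.fst h) i) ⟨0, hk i⟩
    simpa [st] using this
  have hLmod : ∀ x y, a ≤ x → a ≤ y → x ≡ y [MOD Pd] → ∀ i, LF i x = LF i y := by
    have key : ∀ t x, a ≤ x → ∀ i, LF i (x + Pd * t) = LF i x := by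
      intro t x hx i
      induction t with
      | zero => simp
      | succ t ih =>
        rw [show x + Pd * (t + 1) = x + Pd * t + Pd by ring, hperL _ (by omega), ih]
    intro x y hx hy hxy i
    rcases le_total x y with h | h
    · obtain ⟨t, ht⟩ := (Nat.modEq_iff_dvd' h).1 hxy
      have : y = x + Pd * t := by omega
      rw [this, key t x hx]
    · obtain ⟨t, ht⟩ := (Nat.modEq_iff_dvd' h).1 hxy.symm
      have : x = y + Pd * t := by omega
      rw [this, key t y hy]
  obtain ⟨c0, hc0⟩ := rot_main (l := l) (by omega) (by omega) hPpos hperpq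
  have hch : ∀ s : ZMod l, ∃ n, (n ≡ c0 [MOD Pd] ∧ ((D n : ℤ) : ZMod l) = s) ∧ a + 1 ≤ n :=
    fun s => ((hc0 s).and_eventually (eventually_ge_atTop (a + 1))).exists
  choose ν hν using hch
  have hinj : Function.Injective (fun s => ι (ν s)) := by
    intro s t hst
    simp only at hst
    obtain ⟨⟨h1, h2⟩, h3⟩ := hν s
    obtain ⟨⟨h4, h5⟩, h6⟩ := hν t
    have e1 := hDF (ν s - 1)
    have e2 := hDF (ν t - 1)
    rw [show ν s - 1 + 1 = ν s by omega] at e1
    rw [show ν t - 1 + 1 = ν t by omega] at e2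
    have h7 : ν s - 1 ≡ ν t - 1 [MOD Pd] := by
      have : (ν s - 1) + 1 ≡ (ν t - 1) + 1 [MOD Pd] := by
        rw [show ν s - 1 + 1 = ν s by omega, show ν t - 1 + 1 = ν t by omega]
        exact h1.trans h4.symm
      exact Nat.ModEq.add_right_cancel' 1 this
    rw [hst, hLmod _ _ (by omega) (by omega) h7, ← e2] at e1
    rw [← h2, ← h5]
    exact (hcast _ _).1 e1
  have hcardle := Fintype.card_le_of_injective _ hinj
  rw [ZMod.card, Fintype.card_fin] at hcardle
  omega


lemma tau_sq (n : ℕ) : 0 ≤ tau n ∧ 7 ^ n ≤ tau n ^ 2 ∧ tau n ^ 2 ≤ 4 * 7 ^ n := by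
  have h := norm_pq n
  unfold tau
  generalize (pq n).1 = p at *
  generalize (pq n).2 = q at *
  rw [← h]
  set t := max (p + q) (max (q - 2 * p) (p - 2 * q)) with ht
  have h1 : p + q ≤ t := le_max_left _ _
  have h2 : q - 2 * p ≤ t := (le_max_left _ _).trans (le_max_right _ _)
  have h3 : p - 2 * q ≤ t := (le_max_right _ _).trans (le_max_right _ _)
  have h0 : 0 ≤ t := by omega
  have hcases : t = p + q ∨ t = q - 2 * p ∨ t = p - 2 * q := by omega
  refine ⟨h0, ?_, ?_⟩
  · rcases hcases with h4 | h4 | h4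
    · rw [h4] at h1 h2 h3 h0 ⊢
      nlinarith
    · rw [h4] at h1 h2 h3 h0 ⊢
      nlinarith
    · rw [h4] at h1 h2 h3 h0 ⊢
      nlinarith
  · rcases hcases with h4 | h4 | h4 <;> rw [h4]
    · nlinarith [sq_nonneg (p - q)]
    · nlinarith [sq_nonneg q]
    · nlinarith [sq_nonneg p]

lemma tau_bounds (n : ℕ) : √7 ^ n ≤ (tau n : ℝ) ∧ (tau n : ℝ) ≤ 2 * √7 ^ n := by
  obtain ⟨h0, h1, h2⟩ := tau_sq n
  have h0' : (0 : ℝ) ≤ tau n := by exact_mod_cast h0
  have h7 : (√7 ^ n) ^ 2 = (7 : ℝ) ^ n := by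
    rw [← pow_mul, mul_comm, pow_mul, Real.sq_sqrt (by norm_num)]
  have h1' : (7 : ℝ) ^ n ≤ (tau n : ℝ) ^ 2 := by exact_mod_cast h1
  have h2' : (tau n : ℝ) ^ 2 ≤ 4 * (7 : ℝ) ^ n := by exact_mod_cast h2
  constructor
  · apply le_of_sq_le_sq _ h0'
    rw [h7]; exact h1'
  · apply le_of_sq_le_sq _ (by positivity)
    rw [mul_pow, h7]; linarith

lemma D_bounds (n : ℕ) : √7 ^ n ≤ (D n : ℝ) ∧ (D n : ℝ) ≤ 4 * √7 ^ n := by
  have hD : ∀ n, (D (n + 1) : ℝ) = D n + tau (n + 1) := by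
    intro n
    unfold D
    rw [Finset.sum_range_succ]
    push_cast; ring
  have hup : ∀ n, (D n : ℝ) ≤ 4 * √7 ^ n := by
    intro n
    induction n with
    | zero => simp [D]
    | succ n ih =>
      rw [hD]
      have h1 := (tau_bounds (n + 1)).2
      have h2 : (2 : ℝ) ≤ √7 := by
        rw [show (2 : ℝ) = √4 by rw [show (4 : ℝ) = 2 ^ 2 by norm_num, Real.sqrt_sq (by norm_num)]]
        exact Real.sqrt_le_sqrt (by norm_num)
      have h3 : 0 < √7 ^ n := by positivity
      rw [pow_succ] at h1 ⊢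
      nlinarith
  have hpos : ∀ n, 0 ≤ (D n : ℝ) := by
    intro n
    have : 0 ≤ D n := by
      unfold D
      have : 0 ≤ ∑ j ∈ Finset.range n, tau (j + 1) := Finset.sum_nonneg (fun j _ => (tau_sq _).1)
      omega
    exact_mod_cast this
  refine ⟨?_, hup n⟩
  cases n with
  | zero => simp [D]
  | succ n =>
    rw [hD]
    have h1 := (tau_bounds (n + 1)).1
    have := hpos n
    linarith

lemma tendsto_root : Tendsto (fun n : ℕ => (D n : ℝ) ^ ((1 : ℝ) / (n : ℝ))) atTop (𝓝 √7) := by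
  have hlim : Tendsto (fun n : ℕ => (4 : ℝ) ^ ((1 : ℝ) / (n : ℝ)) * √7) atTop (𝓝 √7) := by
    have h1 : Tendsto (fun n : ℕ => (4 : ℝ) ^ ((1 : ℝ) / (n : ℝ))) atTop (𝓝 ((4 : ℝ) ^ (0 : ℝ))) := by
      apply Tendsto.rpow tendsto_const_nhds tendsto_one_div_atTop_nhds_zero_nat
      left; norm_num
    rw [Real.rpow_zero] at h1
    simpa using h1.mul_const √7
  have hroot : ∀ n : ℕ, 1 ≤ n → (√7 ^ n) ^ ((1 : ℝ) / (n : ℝ)) = √7 := by
    intro n hn
    rw [one_div]
    exact Real.pow_rpow_inv_natCast (by positivity) (by omega)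
  refine tendsto_of_tendsto_of_tendsto_of_le_of_le' tendsto_const_nhds hlim ?_ ?_
  · filter_upwards [eventually_ge_atTop 1] with n hn
    rw [← hroot n hn]
    apply Real.rpow_le_rpow (by positivity) (D_bounds n).1 (by positivity)
  · filter_upwards [eventually_ge_atTop 1] with n hn
    rw [← hroot n hn]
    rw [hroot n hn]
    calc (D n : ℝ) ^ ((1 : ℝ) / (n : ℝ)) ≤ (4 * √7 ^ n) ^ ((1 : ℝ) / (n : ℝ)) := by
          apply Real.rpow_le_rpow _ (D_bounds n).2 (by positivity)
          exact le_trans (by positivity) (D_bounds n).1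
      _ = (4 : ℝ) ^ ((1 : ℝ) / (n : ℝ)) * √7 := by
          rw [Real.mul_rpow (by norm_num) (by positivity), hroot n hn]

end Sequence

section Exps

def gE (n : ℕ) : ℤ := max 0 (max (pq n).1 ((pq n).1 - (pq n).2))
def b1E (n : ℕ) : ℤ := max 0 (max ((pq n).2 - (pq n).1) (pq n).2)
def b2E (n : ℕ) : ℤ := max 0 (max (-(pq n).2) (-(pq n).1))

lemma tau_eq (n : ℕ) : gE n + b1E n + b2E n = tau n := by
  unfold gE b1E b2E tau
  generalize (pq n).1 = p
  generalize (pq n).2 = q
  omega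

lemma tau_nonneg (n : ℕ) : 0 ≤ tau n := by
  rw [← tau_eq]
  have h1 : 0 ≤ gE n := le_max_left _ _
  have h2 : 0 ≤ b1E n := le_max_left _ _
  have h3 : 0 ≤ b2E n := le_max_left _ _
  omega

lemma nonnegs (n : ℕ) : 0 ≤ gE n ∧ 0 ≤ b1E n ∧ 0 ≤ b2E n ∧ 0 ≤ gE n - (pq n).1 ∧
    0 ≤ b1E n + (pq n).1 - (pq n).2 ∧ 0 ≤ b2E n + (pq n).2 ∧ 0 ≤ gE n - (pq n).1 + (pq n).2 ∧
    0 ≤ b1E n - (pq n).2 ∧ 0 ≤ b2E n + (pq n).1 := by
  unfold gE b1E b2E
  omega

variable {M : ℕ}

/-- the first four indices -/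
def i0 : Fin (M + 3 + 1) := ⟨0, by omega⟩
def i1 : Fin (M + 3 + 1) := ⟨1, by omega⟩
def i2 : Fin (M + 3 + 1) := ⟨2, by omega⟩
def i3 : Fin (M + 3 + 1) := ⟨3, by omega⟩

lemma i01 : (i0 : Fin (M + 3 + 1)) ≠ i1 := by simp [i0, i1]
lemma i02 : (i0 : Fin (M + 3 + 1)) ≠ i2 := by simp [i0, i2]
lemma i03 : (i0 : Fin (M + 3 + 1)) ≠ i3 := by simp [i0, i3]
lemma i12 : (i1 : Fin (M + 3 + 1)) ≠ i2 := by simp [i1, i2]
lemma i13 : (i1 : Fin (M + 3 + 1)) ≠ i3 := by simp [i1, i3]
lemma i23 : (i2 : Fin (M + 3 + 1)) ≠ i3 := by simp [i2, i3]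

/-- the exponent vector supported on the first three indices -/
noncomputable def ex (a b c : ℤ) : Fin (M + 3 + 1) →₀ ℕ :=
  Finsupp.single i0 a.toNat + Finsupp.single i1 b.toNat + Finsupp.single i2 c.toNat

lemma ex_0 (a b c : ℤ) : (ex a b c : Fin (M + 3 + 1) →₀ ℕ) i0 = a.toNat := by
  simp [ex, Finsupp.single_apply, i01.symm, i02.symm]
lemma ex_1 (a b c : ℤ) : (ex a b c : Fin (M + 3 + 1) →₀ ℕ) i1 = b.toNat := by
  simp [ex, Finsupp.single_apply, i01, i12.symm]
lemma ex_2 (a b c : ℤ) : (ex a b c : Fin (M + 3 + 1) →₀ ℕ) i2 = c.toNat := by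
  simp [ex, Finsupp.single_apply, i02, i12]
lemma ex_of_ne (a b c : ℤ) {i : Fin (M + 3 + 1)} (h0 : i ≠ i0) (h1 : i ≠ i1) (h2 : i ≠ i2) :
    (ex a b c : Fin (M + 3 + 1) →₀ ℕ) i = 0 := by
  simp [ex, Finsupp.single_apply, h0.symm, h1.symm, h2.symm]

lemma ex_degree {a b c : ℤ} (ha : 0 ≤ a) (hb : 0 ≤ b) (hc : 0 ≤ c) :
    (ex a b c : Fin (M + 3 + 1) →₀ ℕ).degree = (a + b + c).toNat := by
  simp only [ex, map_add, Finsupp.degree_single]
  omega

noncomputable def eA (n : ℕ) : Fin (M + 3 + 1) →₀ ℕ := ex (gE n) (b1E n) (b2E n)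
noncomputable def eB (n : ℕ) : Fin (M + 3 + 1) →₀ ℕ :=
  ex (gE n - (pq n).1) (b1E n + (pq n).1 - (pq n).2) (b2E n + (pq n).2)
noncomputable def eC (n : ℕ) : Fin (M + 3 + 1) →₀ ℕ :=
  ex (gE n - (pq n).1 + (pq n).2) (b1E n - (pq n).2) (b2E n + (pq n).1)

lemma degree_eA (n : ℕ) : (eA n : Fin (M + 3 + 1) →₀ ℕ).degree = (tau n).toNat := by
  obtain ⟨h1, h2, h3, h4, h5, h6, h7, h8, h9⟩ := nonnegs n
  rw [eA, ex_degree h1 h2 h3, ← tau_eq]

lemma degree_eB (n : ℕ) : (eB n : Fin (M + 3 + 1) →₀ ℕ).degree = (tau n).toNat := by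
  obtain ⟨h1, h2, h3, h4, h5, h6, h7, h8, h9⟩ := nonnegs n
  rw [eB, ex_degree h4 h5 h6, ← tau_eq]
  congr 1; ring

lemma degree_eC (n : ℕ) : (eC n : Fin (M + 3 + 1) →₀ ℕ).degree = (tau n).toNat := by
  obtain ⟨h1, h2, h3, h4, h5, h6, h7, h8, h9⟩ := nonnegs n
  rw [eC, ex_degree h7 h8 h9, ← tau_eq]
  congr 1; ring

lemma eAB_ne {n : ℕ} (hn : n ≠ 0) : (eA n : Fin (M + 3 + 1) →₀ ℕ) ≠ eB n := by
  obtain ⟨h1, h2, h3, h4, h5, h6, h7, h8, h9⟩ := nonnegs n
  obtain ⟨k1, k2, k3⟩ := pq_gen hn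
  intro h
  have := DFunLike.congr_fun h i0
  rw [eA, eB, ex_0, ex_0] at this
  omega

lemma eAC_ne {n : ℕ} (hn : n ≠ 0) : (eA n : Fin (M + 3 + 1) →₀ ℕ) ≠ eC n := by
  obtain ⟨h1, h2, h3, h4, h5, h6, h7, h8, h9⟩ := nonnegs n
  obtain ⟨k1, k2, k3⟩ := pq_gen hn
  intro h
  have := DFunLike.congr_fun h i0
  rw [eA, eC, ex_0, ex_0] at this
  omega

lemma eBC_ne {n : ℕ} (hn : n ≠ 0) : (eB n : Fin (M + 3 + 1) →₀ ℕ) ≠ eC n := by
  obtain ⟨h1, h2, h3, h4, h5, h6, h7, h8, h9⟩ := nonnegs n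
  obtain ⟨k1, k2, k3⟩ := pq_gen hn
  intro h
  have := DFunLike.congr_fun h i0
  rw [eB, eC, ex_0, ex_0] at this
  omega

lemma zero_at (n : ℕ) (i : Fin (M + 3 + 1)) : eA n i = 0 ∨ eB n i = 0 ∨ eC n i = 0 := by
  unfold eA eB eC
  by_cases h0 : i = i0
  · subst h0; rw [ex_0, ex_0, ex_0]; simp only [gE]; omega
  by_cases h1 : i = i1
  · subst h1; rw [ex_1, ex_1, ex_1]; simp only [b1E]; omega
  by_cases h2 : i = i2
  · subst h2; rw [ex_2, ex_2, ex_2]; simp only [b2E]; omega
  · left; exact ex_of_ne _ _ _ h0 h1 h2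

end Exps

section Polys
variable (K : Type*) [Field K] {M : ℕ}

noncomputable def mA (n : ℕ) : MvPolynomial (Fin (M + 3 + 1)) K := monomial (eA n) 1
noncomputable def mB (n : ℕ) : MvPolynomial (Fin (M + 3 + 1)) K := monomial (eB n) 1
noncomputable def mC (n : ℕ) : MvPolynomial (Fin (M + 3 + 1)) K := monomial (eC n) 1
noncomputable def TT (n : ℕ) : MvPolynomial (Fin (M + 3 + 1)) K := mA K n + mB K n + mC K n

lemma mA_homog (n : ℕ) : (mA K n : MvPolynomial (Fin (M + 3 + 1)) K).IsHomogeneous (tau n).toNat :=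
  isHomogeneous_monomial _ (degree_eA n)
lemma mB_homog (n : ℕ) : (mB K n : MvPolynomial (Fin (M + 3 + 1)) K).IsHomogeneous (tau n).toNat :=
  isHomogeneous_monomial _ (degree_eB n)
lemma mC_homog (n : ℕ) : (mC K n : MvPolynomial (Fin (M + 3 + 1)) K).IsHomogeneous (tau n).toNat :=
  isHomogeneous_monomial _ (degree_eC n)
lemma TT_homog (n : ℕ) : (TT K n : MvPolynomial (Fin (M + 3 + 1)) K).IsHomogeneous (tau n).toNat :=
  ((mA_homog K n).add (mB_homog K n)).add (mC_homog K n)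

lemma not_X_dvd_TT {n : ℕ} (hn : n ≠ 0) (i : Fin (M + 3 + 1)) : ¬ (X i ∣ TT K n) := by
  classical
  rintro ⟨c, hc⟩
  have hcoef : ∀ m : Fin (M + 3 + 1) →₀ ℕ, m i = 0 → coeff m (TT K n) = 0 := by
    intro m hm
    rw [hc, coeff_X_mul', if_neg]
    simpa using hm
  have hAB := eAB_ne (M := M) hn
  have hAC := eAC_ne (M := M) hn
  have hBC := eBC_ne (M := M) hn
  rcases zero_at n i with h | h | h
  · have := hcoef _ h
    simp [TT, mA, mB, mC, coeff_monomial, hAB.symm, hAC.symm] at this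
  · have := hcoef _ h
    simp [TT, mA, mB, mC, coeff_monomial, hAB, hBC.symm] at this
  · have := hcoef _ h
    simp [TT, mA, mB, mC, coeff_monomial, hAC, hBC] at this

noncomputable def PA (k : ℕ) : MvPolynomial (Fin (M + 3 + 1)) K := ∏ j ∈ Finset.range k, mA K (j + 1)

/-- the reduced tuple of the `(k+1)`-st iterate -/
noncomputable def GG (k : ℕ) (i : Fin (M + 3 + 1)) : MvPolynomial (Fin (M + 3 + 1)) K :=
  if i = i1 then X i0 * PA K k * mB K (k + 1)
  else if i = i2 then X i0 * PA K k * mC K (k + 1)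
  else if i = i3 then X i3 * ∏ j ∈ Finset.range (k + 1), TT K (j + 1)
  else X i * PA K k * mA K (k + 1)

lemma D_toNat (n : ℕ) : (D n).toNat = 1 + ∑ j ∈ Finset.range n, (tau (j + 1)).toNat := by
  have h : D n = ((1 + ∑ j ∈ Finset.range n, (tau (j + 1)).toNat : ℕ) : ℤ) := by
    unfold D
    push_cast
    congr 1
    apply Finset.sum_congr rfl
    intro j _
    exact (Int.toNat_of_nonneg (tau_nonneg _)).symm
  rw [h, Int.toNat_natCast]

lemma D_cast (n : ℕ) : ((D n).toNat : ℤ) = D n := by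
  apply Int.toNat_of_nonneg
  unfold D
  have : 0 ≤ ∑ j ∈ Finset.range n, tau (j + 1) := Finset.sum_nonneg (fun j _ => tau_nonneg _)
  omega

lemma GG_homog (k : ℕ) (i : Fin (M + 3 + 1)) : (GG K k i).IsHomogeneous (D (k + 1)).toNat := by
  rw [D_toNat]
  have hPA : (PA K k : MvPolynomial (Fin (M + 3 + 1)) K).IsHomogeneous
      (∑ j ∈ Finset.range k, (tau (j + 1)).toNat) :=
    IsHomogeneous.prod _ _ _ (fun j _ => mA_homog K (j + 1))
  have hX : ∀ j : Fin (M + 3 + 1), (X j : MvPolynomial (Fin (M + 3 + 1)) K).IsHomogeneous 1 :=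
    isHomogeneous_X K
  unfold GG
  split_ifs with h1 h2 h3
  · rw [Finset.sum_range_succ, ← add_assoc]
    exact ((hX i0).mul hPA).mul (mB_homog K (k + 1))
  · rw [Finset.sum_range_succ, ← add_assoc]
    exact ((hX i0).mul hPA).mul (mC_homog K (k + 1))
  · exact (hX i3).mul (IsHomogeneous.prod _ _ _ (fun j _ => TT_homog K (j + 1)))
  · rw [Finset.sum_range_succ, ← add_assoc]
    exact ((hX i).mul hPA).mul (mA_homog K (k + 1))

lemma dvd_monomial {p : MvPolynomial (Fin (M + 3 + 1)) K} (hp : Prime p)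
    {e : Fin (M + 3 + 1) →₀ ℕ} (h : p ∣ monomial e 1) : ∃ i, e i ≠ 0 ∧ Associated p (X i) := by
  rw [monomial_eq, Finsupp.prod] at h
  rcases hp.dvd_or_dvd h with h1 | h1
  · exfalso
    apply hp.not_isUnit
    exact isUnit_of_dvd_unit h1 (by simp)
  · obtain ⟨i, hi, h2⟩ := (Prime.dvd_finsetProd_iff hp _).1 h1
    refine ⟨i, Finsupp.mem_support_iff.1 hi, ?_⟩
    exact hp.associated_of_dvd MvPolynomial.X_prime (hp.dvd_of_dvd_pow h2)

lemma dvd_XPA {p : MvPolynomial (Fin (M + 3 + 1)) K} (hp : Prime p) (k : ℕ)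
    (h : p ∣ X i0 * PA K k * mA K (k + 1)) : ∃ i : Fin (M + 3 + 1), i ≠ i3 ∧ Associated p (X i) := by
  have hA : ∀ n, p ∣ mA K n → ∃ i : Fin (M + 3 + 1), i ≠ i3 ∧ Associated p (X i) := by
    intro n hn
    obtain ⟨i, h1, h2⟩ := dvd_monomial K hp hn
    refine ⟨i, ?_, h2⟩
    rintro rfl
    exact h1 (ex_of_ne _ _ _ i03.symm i13.symm i23.symm)
  rcases hp.dvd_or_dvd h with h1 | h1
  · rcases hp.dvd_or_dvd h1 with h2 | h2
    · exact ⟨i0, i03, hp.associated_of_dvd MvPolynomial.X_prime h2⟩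
    · obtain ⟨j, hj, h3⟩ := (Prime.dvd_finsetProd_iff hp _).1 h2
      exact hA _ h3
  · exact hA _ h1

lemma GG_i0 (k : ℕ) : (GG K k i0 : MvPolynomial (Fin (M + 3 + 1)) K) =
    X i0 * PA K k * mA K (k + 1) := by
  simp [GG, i01, i02, i03]
lemma GG_i1 (k : ℕ) : (GG K k i1 : MvPolynomial (Fin (M + 3 + 1)) K) =
    X i0 * PA K k * mB K (k + 1) := by
  simp [GG]
lemma GG_i2 (k : ℕ) : (GG K k i2 : MvPolynomial (Fin (M + 3 + 1)) K) =
    X i0 * PA K k * mC K (k + 1) := by
  simp [GG, i12.symm]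
lemma GG_i3 (k : ℕ) : (GG K k i3 : MvPolynomial (Fin (M + 3 + 1)) K) =
    X i3 * ∏ j ∈ Finset.range (k + 1), TT K (j + 1) := by
  simp [GG, i13.symm, i23.symm]
lemma GG_of_ne (k : ℕ) {i : Fin (M + 3 + 1)} (h1 : i ≠ i1) (h2 : i ≠ i2) (h3 : i ≠ i3) :
    (GG K k i : MvPolynomial (Fin (M + 3 + 1)) K) = X i * PA K k * mA K (k + 1) := by
  simp [GG, h1, h2, h3]

lemma GG_coprime (k : ℕ) (c : MvPolynomial (Fin (M + 3 + 1)) K) (hc : ∀ i, c ∣ GG K k i) :
    IsUnit c := by
  by_contra hu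
  have hc3 := hc i3
  rw [GG_i3] at hc3
  have hc0 := hc i0
  rw [GG_i0] at hc0
  by_cases h0 : c = 0
  · subst h0
    rw [zero_dvd_iff] at hc3
    rcases mul_eq_zero.1 hc3 with h3 | h3
    · exact X_ne_zero _ h3
    · rw [Finset.prod_eq_zero_iff] at h3
      obtain ⟨j, _, h4⟩ := h3
      exact not_X_dvd_TT K (Nat.succ_ne_zero j) i0 (by rw [Nat.succ_eq_add_one, h4]; exact dvd_zero _)
  · obtain ⟨p, hp, hpc⟩ := WfDvdMonoid.exists_irreducible_factor hu h0
    have hp' : Prime p := UniqueFactorizationMonoid.irreducible_iff_prime.1 hp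
    obtain ⟨i, hi, hass⟩ := dvd_XPA K hp' k (hpc.trans hc0)
    have h3 := hpc.trans hc3
    rcases hp'.dvd_or_dvd h3 with h4 | h4
    · have h5 : (X i : MvPolynomial (Fin (M + 3 + 1)) K) ∣ X i3 := hass.symm.dvd.trans h4
      rw [MvPolynomial.X_dvd_X] at h5
      exact hi h5
    · obtain ⟨j, _, h5⟩ := (Prime.dvd_finsetProd_iff hp' _).1 h4
      exact not_X_dvd_TT K (Nat.succ_ne_zero j) i (hass.symm.dvd.trans h5)

lemma GG_reduced (k : ℕ) : IsReduced (N := M + 3) (GG K k) (D (k + 1)).toNat :=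
  ⟨GG_homog K k, GG_coprime K k⟩

end Polys


section FieldPart
variable (K : Type*) [Field K] {M : ℕ}

lemma map_ne {σ : Type*} {q : MvPolynomial σ K} (hq : q ≠ 0) :
    algebraMap (MvPolynomial σ K) (FractionRing (MvPolynomial σ K)) q ≠ 0 := by
  simpa using hq

/-- the homogeneous coordinates as elements of the function field -/
noncomputable def xx (i : Fin (M + 3 + 1)) : FractionRing (MvPolynomial (Fin (M + 3 + 1)) K) :=
  algebraMap (MvPolynomial (Fin (M + 3 + 1)) K) (FractionRing (MvPolynomial (Fin (M + 3 + 1)) K))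
    (X i)

lemma xx_ne (i : Fin (M + 3 + 1)) : xx K i ≠ 0 := map_ne K (X_ne_zero i)

noncomputable def ax : FractionRing (MvPolynomial (Fin (M + 3 + 1)) K) := xx K i1 / xx K i0
noncomputable def ay : FractionRing (MvPolynomial (Fin (M + 3 + 1)) K) := xx K i2 / xx K i0
noncomputable def az : FractionRing (MvPolynomial (Fin (M + 3 + 1)) K) := xx K i3 / xx K i0

lemma ax_ne : (ax K : FractionRing (MvPolynomial (Fin (M + 3 + 1)) K)) ≠ 0 :=
  div_ne_zero (xx_ne K _) (xx_ne K _)
lemma ay_ne : (ay K : FractionRing (MvPolynomial (Fin (M + 3 + 1)) K)) ≠ 0 :=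
  div_ne_zero (xx_ne K _) (xx_ne K _)

noncomputable def xn (n : ℕ) : FractionRing (MvPolynomial (Fin (M + 3 + 1)) K) :=
  ax K ^ ((pq n).1 - (pq n).2) * ay K ^ ((pq n).2)
noncomputable def yn (n : ℕ) : FractionRing (MvPolynomial (Fin (M + 3 + 1)) K) :=
  ax K ^ (-(pq n).2) * ay K ^ ((pq n).1)
noncomputable def zn (n : ℕ) : FractionRing (MvPolynomial (Fin (M + 3 + 1)) K) :=
  az K * ∏ j ∈ Finset.range n, (1 + xn K (j + 1) + yn K (j + 1))

lemma map_ex {a b c : ℤ} (ha : 0 ≤ a) (hb : 0 ≤ b) (hc : 0 ≤ c) :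
    algebraMap (MvPolynomial (Fin (M + 3 + 1)) K)
      (FractionRing (MvPolynomial (Fin (M + 3 + 1)) K)) (monomial (ex a b c) 1)
      = xx K i0 ^ a * xx K i1 ^ b * xx K i2 ^ c := by
  have h : (monomial (ex a b c) 1 : MvPolynomial (Fin (M + 3 + 1)) K) =
      X i0 ^ a.toNat * X i1 ^ b.toNat * X i2 ^ c.toNat := by
    simp [ex, X_pow_eq_monomial, monomial_mul]
  rw [h, map_mul, map_mul, map_pow, map_pow, map_pow]
  have e : ∀ (i : Fin (M + 3 + 1)) {a : ℤ}, 0 ≤ a → xx K i ^ a = xx K i ^ a.toNat := by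
    intro i a ha
    conv_lhs => rw [← Int.toNat_of_nonneg ha]
    rw [zpow_natCast]
  rw [e _ ha, e _ hb, e _ hc]
  rfl

lemma map_mA (n : ℕ) : algebraMap (MvPolynomial (Fin (M + 3 + 1)) K)
      (FractionRing (MvPolynomial (Fin (M + 3 + 1)) K)) (mA K n)
      = xx K i0 ^ gE n * xx K i1 ^ b1E n * xx K i2 ^ b2E n := by
  obtain ⟨h1, h2, h3, h4, h5, h6, h7, h8, h9⟩ := nonnegs n
  exact map_ex K h1 h2 h3

lemma map_mB (n : ℕ) : algebraMap (MvPolynomial (Fin (M + 3 + 1)) K)
      (FractionRing (MvPolynomial (Fin (M + 3 + 1)) K)) (mB K n)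
      = algebraMap (MvPolynomial (Fin (M + 3 + 1)) K)
        (FractionRing (MvPolynomial (Fin (M + 3 + 1)) K)) (mA K n) * xn K n := by
  obtain ⟨h1, h2, h3, h4, h5, h6, h7, h8, h9⟩ := nonnegs n
  rw [map_mA]
  refine (map_ex K h4 h5 h6).trans ?_
  unfold xn ax ay
  generalize (pq n).1 = p
  generalize (pq n).2 = q
  generalize gE n = g
  generalize b1E n = b1
  generalize b2E n = b2
  have x0 := xx_ne K (M := M) i0
  have x1 := xx_ne K (M := M) i1
  have x2 := xx_ne K (M := M) i2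
  rw [div_zpow, div_zpow, zpow_sub₀ x0 g p, show b1 + p - q = b1 + (p - q) by ring,
    zpow_add₀ x1, zpow_add₀ x2, show xx K (M := M) i0 ^ p = xx K i0 ^ (p - q) * xx K i0 ^ q by
      rw [← zpow_add₀ x0]; ring_nf]
  have e1 : xx K (M := M) i0 ^ (p - q) ≠ 0 := zpow_ne_zero _ x0
  have e2 : xx K (M := M) i0 ^ q ≠ 0 := zpow_ne_zero _ x0
  field_simp

lemma map_mC (n : ℕ) : algebraMap (MvPolynomial (Fin (M + 3 + 1)) K)
      (FractionRing (MvPolynomial (Fin (M + 3 + 1)) K)) (mC K n)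
      = algebraMap (MvPolynomial (Fin (M + 3 + 1)) K)
        (FractionRing (MvPolynomial (Fin (M + 3 + 1)) K)) (mA K n) * yn K n := by
  obtain ⟨h1, h2, h3, h4, h5, h6, h7, h8, h9⟩ := nonnegs n
  rw [map_mA]
  refine (map_ex K h7 h8 h9).trans ?_
  unfold yn ax ay
  generalize (pq n).1 = p
  generalize (pq n).2 = q
  generalize gE n = g
  generalize b1E n = b1
  generalize b2E n = b2
  have x0 := xx_ne K (M := M) i0
  have x1 := xx_ne K (M := M) i1
  have x2 := xx_ne K (M := M) i2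
  rw [div_zpow, div_zpow, show g - p + q = g + (-p) + q by ring, zpow_add₀ x0, zpow_add₀ x0,
    zpow_neg, show b1 - q = b1 + (-q) by ring, zpow_add₀ x1, zpow_add₀ x2, zpow_neg (xx K i0) q]
  have e1 : xx K (M := M) i0 ^ p ≠ 0 := zpow_ne_zero _ x0
  have e2 : xx K (M := M) i0 ^ q ≠ 0 := zpow_ne_zero _ x0
  field_simp

lemma map_TT (n : ℕ) : algebraMap (MvPolynomial (Fin (M + 3 + 1)) K)
      (FractionRing (MvPolynomial (Fin (M + 3 + 1)) K)) (TT K n)
      = algebraMap (MvPolynomial (Fin (M + 3 + 1)) K)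
        (FractionRing (MvPolynomial (Fin (M + 3 + 1)) K)) (mA K n) * (1 + xn K n + yn K n) := by
  rw [TT, map_add, map_add, map_mB, map_mC]; ring

/-- the affine coordinates of the `n`-th iterate -/
noncomputable def aff (n : ℕ) (i : Fin (M + 3 + 1)) :
    FractionRing (MvPolynomial (Fin (M + 3 + 1)) K) :=
  if i = i1 then xn K n else if i = i2 then yn K n else if i = i3 then zn K n
  else xx K i / xx K i0

lemma aff_i1 (n : ℕ) : aff K n i1 = (xn K n : FractionRing (MvPolynomial (Fin (M + 3 + 1)) K)) := by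
  simp [aff]
lemma aff_i2 (n : ℕ) : aff K n i2 = (yn K n : FractionRing (MvPolynomial (Fin (M + 3 + 1)) K)) := by
  simp [aff, i12.symm]
lemma aff_i3 (n : ℕ) : aff K n i3 = (zn K n : FractionRing (MvPolynomial (Fin (M + 3 + 1)) K)) := by
  simp [aff, i13.symm, i23.symm]
lemma aff_of_ne (n : ℕ) {i : Fin (M + 3 + 1)} (h1 : i ≠ i1) (h2 : i ≠ i2) (h3 : i ≠ i3) :
    aff K n i = xx K i / xx K i0 := by
  simp [aff, h1, h2, h3]

lemma map_GG (k : ℕ) (i : Fin (M + 3 + 1)) :
    algebraMap (MvPolynomial (Fin (M + 3 + 1)) K)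
      (FractionRing (MvPolynomial (Fin (M + 3 + 1)) K)) (GG K k i)
      = algebraMap (MvPolynomial (Fin (M + 3 + 1)) K)
        (FractionRing (MvPolynomial (Fin (M + 3 + 1)) K)) (GG K k i0) * aff K (k + 1) i := by
  rw [GG_i0]
  by_cases h1 : i = i1
  · subst h1
    rw [GG_i1, aff_i1, map_mul, map_mB, map_mul _ _ (mA K (k + 1))]; ring
  by_cases h2 : i = i2
  · subst h2
    rw [GG_i2, aff_i2, map_mul, map_mC, map_mul _ _ (mA K (k + 1))]; ring
  by_cases h3 : i = i3
  · subst h3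
    rw [GG_i3, aff_i3, map_mul, map_prod, zn, az]
    simp only [map_TT]
    rw [Finset.prod_mul_distrib]
    have e : algebraMap (MvPolynomial (Fin (M + 3 + 1)) K)
      (FractionRing (MvPolynomial (Fin (M + 3 + 1)) K)) (X i0 * PA K k * mA K (k + 1)) =
      xx K i0 * ∏ j ∈ Finset.range (k + 1), algebraMap (MvPolynomial (Fin (M + 3 + 1)) K)
      (FractionRing (MvPolynomial (Fin (M + 3 + 1)) K)) (mA K (j + 1)) := by
      rw [Finset.prod_range_succ, map_mul, map_mul, PA, map_prod]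
      rw [← mul_assoc]; rfl
    rw [e]
    have x0 := xx_ne K (M := M) i0
    rw [show algebraMap (MvPolynomial (Fin (M + 3 + 1)) K)
      (FractionRing (MvPolynomial (Fin (M + 3 + 1)) K)) (X i3) = xx K i3 from rfl]
    field_simp
  · rw [GG_of_ne K k h1 h2 h3, aff_of_ne K _ h1 h2 h3]
    simp only [map_mul]
    have x0 := xx_ne K (M := M) i0
    rw [show algebraMap (MvPolynomial (Fin (M + 3 + 1)) K)
      (FractionRing (MvPolynomial (Fin (M + 3 + 1)) K)) (X i) = xx K i from rfl,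
      show algebraMap (MvPolynomial (Fin (M + 3 + 1)) K)
      (FractionRing (MvPolynomial (Fin (M + 3 + 1)) K)) (X i0) = xx K i0 from rfl]
    field_simp

lemma GG0_ne (k : ℕ) : (GG K k i0 : MvPolynomial (Fin (M + 3 + 1)) K) ≠ 0 := by
  rw [GG_i0]
  refine mul_ne_zero (mul_ne_zero (X_ne_zero _) ?_) ?_
  · rw [PA, Finset.prod_ne_zero_iff]
    intro j _
    simp [mA]
  · simp [mA]

lemma trinom_ne {n : ℕ} (hn : n ≠ 0) :
    (1 + xn K n + yn K n : FractionRing (MvPolynomial (Fin (M + 3 + 1)) K)) ≠ 0 := by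
  intro h
  have h1 := map_TT K (M := M) n
  rw [h, mul_zero] at h1
  have h2 : (TT K n : MvPolynomial (Fin (M + 3 + 1)) K) ≠ 0 := by
    intro h3
    exact not_X_dvd_TT K hn i0 (by rw [h3]; exact dvd_zero _)
  exact map_ne K h2 h1

lemma F_indep : AlgebraicIndependent K (fun i : Fin (M + 3 + 1) =>
    algebraMap (MvPolynomial (Fin (M + 3 + 1)) K)
      (FractionRing (MvPolynomial (Fin (M + 3 + 1)) K)) (GG K 0 i)) := by
  apply algInd_of_mem
  set y : Fin (M + 3 + 1) → FractionRing (MvPolynomial (Fin (M + 3 + 1)) K) := fun i =>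
    algebraMap (MvPolynomial (Fin (M + 3 + 1)) K)
      (FractionRing (MvPolynomial (Fin (M + 3 + 1)) K)) (GG K 0 i) with hy
  have hy0 : y i0 ≠ 0 := map_ne K (GG0_ne K 0)
  have haff : ∀ i, aff K 1 i ∈ algSub (K := K) y := by
    intro i
    have h1 : aff K 1 i = y i / y i0 := by
      rw [eq_div_iff hy0, mul_comm]
      exact (map_GG K 0 i).symm
    rw [h1]
    exact div_mem (mem_algSub_self y i) (mem_algSub_self y i0)
  have p1 : pq 1 = (3, 1) := by simp [pq]
  have hx1 := haff i1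
  have hy1 := haff i2
  have hz1 := haff i3
  rw [aff_i1, xn, p1] at hx1
  rw [aff_i2, yn, p1] at hy1
  have axn := ax_ne K (M := M)
  have ayn := ay_ne K (M := M)
  have hx : (ax K : FractionRing (MvPolynomial (Fin (M + 3 + 1)) K)) ∈ algSub (K := K) y := by
    apply mem_algSub_of_pow y (n := 7) (by norm_num)
    have h := div_mem (pow_mem hx1 3) hy1
    convert h using 1
    norm_num
    field_simp
  have hyy : (ay K : FractionRing (MvPolynomial (Fin (M + 3 + 1)) K)) ∈ algSub (K := K) y := by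
    apply mem_algSub_of_pow y (n := 7) (by norm_num)
    have h := mul_mem hx1 (pow_mem hy1 2)
    convert h using 1
    norm_num
    field_simp
  have x0 := xx_ne K (M := M) i0
  have h0 : xx K i0 ∈ algSub (K := K) y := by
    apply mem_algSub_of_pow y (n := 5) (by norm_num)
    have h1 : y i0 = xx K i0 ^ 5 * ax K := by
      simp only [hy]
      rw [GG_i0, map_mul, map_mul, map_mA]
      simp only [PA, Finset.range_zero, Finset.prod_empty, map_one, zero_add, mul_one]
      rw [show gE 1 = 3 by simp [gE, p1], show b1E 1 = 1 by simp [b1E, p1],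
        show b2E 1 = 0 by simp [b2E, p1]]
      rw [show algebraMap (MvPolynomial (Fin (M + 3 + 1)) K)
        (FractionRing (MvPolynomial (Fin (M + 3 + 1)) K)) (X i0) = xx K i0 from rfl, ax]
      field_simp
    have h2 : xx K i0 ^ 5 = y i0 / ax K := by rw [h1, mul_div_cancel_right₀ _ axn]
    rw [h2]
    exact div_mem (mem_algSub_self y i0) hx
  have key : ∀ i, xx K i / xx K i0 ∈ algSub (K := K) y → xx K i ∈ algSub (K := K) y := by
    intro i hi
    have := mul_mem hi h0
    rwa [div_mul_cancel₀ _ x0] at this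
  have hz : (az K : FractionRing (MvPolynomial (Fin (M + 3 + 1)) K)) ∈ algSub (K := K) y := by
    have h1 := trinom_ne K (M := M) (n := 1) one_ne_zero
    have h2 : az K = aff K 1 i3 / (1 + xn K 1 + yn K 1 :
        FractionRing (MvPolynomial (Fin (M + 3 + 1)) K)) := by
      rw [aff_i3, zn, Finset.prod_range_one, zero_add, mul_div_cancel_right₀ _ h1]
    rw [h2]
    refine div_mem hz1 (add_mem (add_mem (one_mem _) ?_) ?_)
    · rw [xn, p1]; exact hx1
    · rw [yn, p1]; exact hy1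
  intro i
  by_cases h1 : i = i1
  · subst h1; exact key i1 hx
  by_cases h2 : i = i2
  · subst h2; exact key i2 hyy
  by_cases h3 : i = i3
  · subst h3; exact key i3 hz
  · apply key i
    have := haff i
    rwa [aff_of_ne K _ h1 h2 h3] at this

lemma F_dominant : IsDominant (N := M + 3) (GG K 0) := by
  intro P hP
  apply F_indep K (M := M)
  rw [map_zero]
  have h1 : (aeval (fun i : Fin (M + 3 + 1) => algebraMap (MvPolynomial (Fin (M + 3 + 1)) K)
      (FractionRing (MvPolynomial (Fin (M + 3 + 1)) K)) (GG K 0 i))) P =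
      algebraMap (MvPolynomial (Fin (M + 3 + 1)) K)
      (FractionRing (MvPolynomial (Fin (M + 3 + 1)) K)) (aeval (GG K 0) P) := by
    rw [← MvPolynomial.aeval_algebraMap_apply]
    rfl
  rw [h1, hP, map_zero]

lemma exists_Phi : ∃ Φ : FractionRing (MvPolynomial (Fin (M + 3 + 1)) K) →ₐ[K]
      FractionRing (MvPolynomial (Fin (M + 3 + 1)) K),
      ∀ p : MvPolynomial (Fin (M + 3 + 1)) K, Φ (algebraMap _ _ p) =
        algebraMap _ _ (aeval (GG K 0) p) := by
  have hinj' : Function.Injective ((IsScalarTower.toAlgHom K (MvPolynomial (Fin (M + 3 + 1)) K)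
      (FractionRing (MvPolynomial (Fin (M + 3 + 1)) K))).comp (aeval (GG K 0))) := by
    rw [injective_iff_map_eq_zero]
    intro P hP
    apply F_dominant K (M := M)
    have : algebraMap (MvPolynomial (Fin (M + 3 + 1)) K)
      (FractionRing (MvPolynomial (Fin (M + 3 + 1)) K)) (aeval (GG K 0) P) = 0 := hP
    rwa [IsFractionRing.to_map_eq_zero_iff] at this
  refine ⟨IsFractionRing.liftAlgHom hinj', fun p => ?_⟩
  rw [IsFractionRing.liftAlgHom_apply, IsFractionRing.lift_algebraMap]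
  rfl

end FieldPart

section IterPart
variable (K : Type*) [Field K] {M : ℕ}

lemma Phi_iter {Φ : FractionRing (MvPolynomial (Fin (M + 3 + 1)) K) →ₐ[K]
      FractionRing (MvPolynomial (Fin (M + 3 + 1)) K)}
    (hΦ : ∀ p : MvPolynomial (Fin (M + 3 + 1)) K, Φ (algebraMap _ _ p) =
        algebraMap _ _ (aeval (GG K 0) p)) (n : ℕ) (i : Fin (M + 3 + 1)) :
    algebraMap (MvPolynomial (Fin (M + 3 + 1)) K)
      (FractionRing (MvPolynomial (Fin (M + 3 + 1)) K)) (iter (N := M + 3) (GG K 0) n i)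
      = algebraMap (MvPolynomial (Fin (M + 3 + 1)) K)
      (FractionRing (MvPolynomial (Fin (M + 3 + 1)) K)) (iter (N := M + 3) (GG K 0) n i0)
        * aff K n i := by
  have hx : ∀ i, Φ (xx K i) = algebraMap (MvPolynomial (Fin (M + 3 + 1)) K)
      (FractionRing (MvPolynomial (Fin (M + 3 + 1)) K)) (GG K 0 i) := by
    intro i
    rw [xx, hΦ, aeval_X]
  have hG0 : algebraMap (MvPolynomial (Fin (M + 3 + 1)) K)
      (FractionRing (MvPolynomial (Fin (M + 3 + 1)) K)) (GG K 0 i0) ≠ 0 := map_ne K (GG0_ne K 0)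
  have hq : ∀ i, Φ (xx K i / xx K i0) = aff K 1 i := by
    intro i
    rw [map_div₀, hx, hx, map_GG K 0 i, mul_div_cancel_left₀ _ hG0]
  have hax : Φ (ax K) = xn K 1 := by rw [ax, hq, aff_i1]
  have hay : Φ (ay K) = yn K 1 := by rw [ay, hq, aff_i2]
  have haz : Φ (az K) = zn K 1 := by rw [az, hq, aff_i3]
  have p1 : pq 1 = (3, 1) := by simp [pq]
  have axn := ax_ne K (M := M)
  have ayn := ay_ne K (M := M)
  have hxn : ∀ n, Φ (xn K n) = xn K (n + 1) := by
    intro n
    rw [xn, map_mul, map_zpow₀, map_zpow₀, hax, hay, xn, yn, xn, p1]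
    simp only [pq]
    generalize (pq n).1 = p
    generalize (pq n).2 = q
    simp only [mul_zpow, ← zpow_mul]
    rw [show ∀ a b c d : FractionRing (MvPolynomial (Fin (M + 3 + 1)) K),
      a * b * (c * d) = (a * c) * (b * d) from fun a b c d => by ring,
      ← zpow_add₀ axn, ← zpow_add₀ ayn]
    congr 2 <;> ring
  have hyn : ∀ n, Φ (yn K n) = yn K (n + 1) := by
    intro n
    rw [yn, map_mul, map_zpow₀, map_zpow₀, hax, hay, xn, yn, yn, p1]
    simp only [pq]
    generalize (pq n).1 = p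
    generalize (pq n).2 = q
    simp only [mul_zpow, ← zpow_mul]
    rw [show ∀ a b c d : FractionRing (MvPolynomial (Fin (M + 3 + 1)) K),
      a * b * (c * d) = (a * c) * (b * d) from fun a b c d => by ring,
      ← zpow_add₀ axn, ← zpow_add₀ ayn]
    congr 2 <;> ring
  have hzn : ∀ n, Φ (zn K n) = zn K (n + 1) := by
    intro n
    rw [zn, map_mul, map_prod, haz, zn, zn, Finset.prod_range_one, Finset.prod_range_succ']
    simp only [map_add, map_one, hxn, hyn]
    ring
  have haff : ∀ n i, (Φ ^ n) (xx K i / xx K i0) = aff K n i := by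
    intro n
    induction n with
    | zero =>
      intro i
      rw [pow_zero, AlgHom.one_apply]
      by_cases h1 : i = i1
      · subst h1; rw [aff_i1, xn]; simp [pq, ax]
      by_cases h2 : i = i2
      · subst h2; rw [aff_i2, yn]; simp [pq, ay]
      by_cases h3 : i = i3
      · subst h3; rw [aff_i3, zn]; simp [az]
      · rw [aff_of_ne K _ h1 h2 h3]
    | succ n ih =>
      intro i
      rw [pow_succ', AlgHom.mul_apply, ih]
      by_cases h1 : i = i1
      · subst h1; rw [aff_i1, hxn, aff_i1]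
      by_cases h2 : i = i2
      · subst h2; rw [aff_i2, hyn, aff_i2]
      by_cases h3 : i = i3
      · subst h3; rw [aff_i3, hzn, aff_i3]
      · rw [aff_of_ne K _ h1 h2 h3, hq, aff_of_ne K _ h1 h2 h3, aff_of_ne K _ h1 h2 h3]
  have hit : ∀ n i, algebraMap (MvPolynomial (Fin (M + 3 + 1)) K)
      (FractionRing (MvPolynomial (Fin (M + 3 + 1)) K)) (iter (N := M + 3) (GG K 0) n i) =
      (Φ ^ n) (xx K i) := by
    intro n
    induction n with
    | zero => intro i; rw [pow_zero, AlgHom.one_apply]; rfl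
    | succ n ih =>
      intro i
      rw [pow_succ', AlgHom.mul_apply, ← ih, hΦ]; rfl
  rw [hit, hit, ← haff, ← map_mul, mul_div_cancel₀ _ (xx_ne K i0)]

lemma iterateDegree (k : ℕ) : IsIterateDegree (N := M + 3) (GG K 0) (k + 1) (D (k + 1)).toNat := by
  obtain ⟨Φ, hΦ⟩ := exists_Phi K (M := M)
  have h1 : ∀ i, iter (N := M + 3) (GG K 0) (k + 1) i * GG K k i0 =
      iter (N := M + 3) (GG K 0) (k + 1) i0 * GG K k i := by
    intro i
    apply IsFractionRing.injective (MvPolynomial (Fin (M + 3 + 1)) K)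
      (FractionRing (MvPolynomial (Fin (M + 3 + 1)) K))
    rw [map_mul, map_mul, Phi_iter K hΦ (k + 1) i, map_GG K k i]
    ring
  have hdvd : GG K k i0 ∣ iter (N := M + 3) (GG K 0) (k + 1) i0 := by
    apply dvd_of_dvd_mul_coprime (N := M + 3) (GG_coprime K k)
    intro i
    exact ⟨iter (N := M + 3) (GG K 0) (k + 1) i, by rw [← h1, mul_comm]⟩
  obtain ⟨h, hh⟩ := hdvd
  have hne := GG0_ne K (M := M) k
  have hiter0 : iter (N := M + 3) (GG K 0) (k + 1) i0 ≠ 0 := by
    intro h0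
    have hall : ∀ n, iter (N := M + 3) (GG K 0) n i0 ≠ 0 := by
      intro n
      induction n with
      | zero => exact X_ne_zero _
      | succ n ih => intro h2; exact ih (F_dominant K _ h2)
    exact hall _ h0
  refine ⟨h, GG K k, ?_, ?_, GG_reduced K k⟩
  · rintro rfl
    rw [mul_zero] at hh
    exact hiter0 hh
  · intro i
    have h2 := h1 i
    rw [hh] at h2
    apply mul_right_cancel₀ hne
    rw [h2]; ring

end IterPart

section Final

universe u

/-- **Negative answer.** For every field `K` and every `N ≥ 3` there is a dominant rational self-map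
of projective `N`-space over `K` whose degree sequence does not run inside any finite family of
constant-coefficient linear recurrence sequences. -/
theorem result (K : Type u) [Field K] (N : ℕ) (hN : 3 ≤ N) :
    ∃ (F : Fin (N + 1) → MvPolynomial (Fin (N + 1)) K) (d : ℕ) (δ : ℕ → ℕ),
      IsReduced F d ∧ IsDominant F ∧
      (∀ n, 1 ≤ n → ∀ e, IsIterateDegree F n e ↔ e = δ n) ∧
      (∀ (r : ℕ) (L : Fin r → ℕ → ℂ), (∀ i, IsLinearRecurrence (L i)) → ∀ ι : ℕ → Fin r,
        ∃ n, 1 ≤ n ∧ (δ n : ℂ) ≠ L (ι n) n) ∧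
      Tendsto (fun n : ℕ => (δ n : ℝ) ^ ((1 : ℝ) / (n : ℝ))) atTop (𝓝 √7) := by
  obtain ⟨M, rfl⟩ : ∃ M, N = M + 3 := ⟨N - 3, by omega⟩
  refine ⟨GG K 0, (D 1).toNat, fun n => (D n).toNat, GG_reduced K 0, F_dominant K, ?_, ?_, ?_⟩
  · intro n hn e
    obtain ⟨k, rfl⟩ : ∃ k, n = k + 1 := ⟨n - 1, by omega⟩
    constructor
    · intro h
      exact iterateDegree_unique h (iterateDegree K k)
    · rintro rfl
      exact iterateDegree K k
  · intro r L hL ι
    obtain ⟨n, hn, h⟩ := not_union r L hL ι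
    refine ⟨n, hn, ?_⟩
    have e : (((D n).toNat : ℕ) : ℂ) = ((D n : ℤ) : ℂ) := by
      rw [← Int.cast_natCast, D_cast]
    simp only
    rw [e]
    exact h
  · have e : ∀ n : ℕ, (((D n).toNat : ℕ) : ℝ) = ((D n : ℤ) : ℝ) := by
      intro n
      rw [← Int.cast_natCast, D_cast]
    simp only [e]
    exact tendsto_root

end Final

end Pool.Agent.Results.MP_3d9fc2_ag.NoFiniteUnion
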